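import Mathlib
import Pool.Agent.Lib_helper89.PPM.AlgCorrect

/-!
# The pebble game algorithm is correct for patterns of small treewidth
-/

set_option autoImplicit false

namespace Pool.Agent.PPMX

open Pool.Agent.PPM Pool.Agent.PT

/-- the pebble game of an accepting run of the algorithm -/
theorem exists_game {K : ℕ} {σ τ : Permutation} (h : alg K (values σ) (values τ) = true)
    (h0 : σ.1 ≠ 0) : ∃ H : Set (Fin K → Fin σ.1 × Fin τ.1),
      Game (fun i : Fin σ.1 => (i.val : ℤ)) (fun i => ((σ.2 i).val : ℤ))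
      (fun i : Fin τ.1 => (i.val : ℤ)) (fun i => ((τ.2 i).val : ℤ)) Finset.univ K H ∧
      ∃ w, w ∈ H := by
  unfold alg at h
  rw [Bool.or_eq_true] at h
  have h1 : (values σ).isEmpty = false := by
    rw [List.isEmpty_eq_false_iff]
    intro hcon
    have := congrArg List.length hcon
    simp [values] at this
    omega
  rw [h1] at h
  simp only [Bool.false_eq_true, Bool.not_eq_true', List.isEmpty_eq_false_iff, false_or] at h
  set P := pts (values σ) with hP
  set Q := pts (values τ) with hQ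
  obtain ⟨Hs, hHs⟩ : ∃ Hs, Hs = (step K P)^[(start K P Q).length] (start K P Q) := ⟨_, rfl⟩
  rw [← hHs] at h
  have hfix : step K P Hs = Hs := by
    rw [hHs]
    exact iterate_fixed (step K P) (fun H w => good K P H w) (fun H => rfl) _ _ le_rfl
  have hsub : ∀ w ∈ Hs, w ∈ start K P Q := by
    rw [hHs]
    have : ∀ (n : ℕ) (w), w ∈ (step K P)^[n] (start K P Q) → w ∈ start K P Q := by
      intro n
      induction n with
      | zero => exact fun w h => h
      | succ n ih =>
        intro w hw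
        rw [Function.iterate_succ_apply', mem_step] at hw
        exact ih w hw.1
    exact this _
  -- lists of length K as functions
  have hfun : ∀ w ∈ Hs, ∃ w' : Fin K → Fin σ.1 × Fin τ.1,
      w = List.ofFn fun a => (ppt σ (w' a).1, ppt τ (w' a).2) := by
    intro w hw
    obtain ⟨hl, hm, _⟩ := mem_start.mp (hsub w hw)
    have : ∀ a : Fin K, ∃ x : Fin σ.1 × Fin τ.1,
        w[a.val]'(by rw [hl]; exact a.2) = (ppt σ x.1, ppt τ x.2) := by
      intro a
      obtain ⟨h1, h2⟩ := hm _ (List.getElem_mem (by rw [hl]; exact a.2 : a.val < w.length))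
      obtain ⟨i, hi⟩ := mem_pts.mp h1
      obtain ⟨j, hj⟩ := mem_pts.mp h2
      exact ⟨(i, j), Prod.ext hi.symm hj.symm⟩
    choose w' hw' using this
    refine ⟨w', ?_⟩
    apply List.ext_getElem
    · simp [hl]
    · intro n h1 h2
      rw [List.getElem_ofFn]
      exact hw' ⟨n, by rw [← hl]; exact h1⟩
  let H : Set (Fin K → Fin σ.1 × Fin τ.1) :=
    {w | List.ofFn (fun a => (ppt σ (w a).1, ppt τ (w a).2)) ∈ Hs}
  have hrel : ∀ w ∈ H, ∀ a b, rel (ppt σ (w a).1, ppt τ (w a).2)
      (ppt σ (w b).1, ppt τ (w b).2) = true := by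
    intro w hw a b
    obtain ⟨_, _, h3⟩ := mem_start.mp (hsub _ hw)
    exact h3 _ (List.mem_ofFn.mpr ⟨a, rfl⟩) _ (List.mem_ofFn.mpr ⟨b, rfl⟩)
  have hrel' : ∀ w ∈ H, ∀ a b, ((w a).1.val < (w b).1.val ↔ (w a).2.val < (w b).2.val) ∧
      ((σ.2 (w a).1).val < (σ.2 (w b).1).val ↔ (τ.2 (w a).2).val < (τ.2 (w b).2).val) := by
    intro w hw a b
    have := hrel w hw a b
    simp only [rel, ppt, Bool.and_eq_true, beq_iff_eq, decide_eq_decide] at this
    exact this
  refine ⟨H, ⟨?_, ?_, ?_, ?_⟩, ?_⟩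
  · intro w hw a b hab
    have h1 := (hrel' w hw a b).1
    have h2 := (hrel' w hw b a).1
    rw [hab] at h1 h2
    apply Fin.ext
    omega
  · intro w hw a b hab
    have := (hrel' w hw a b).1.mp (by exact_mod_cast hab)
    exact_mod_cast this
  · intro w hw a b hab
    have := (hrel' w hw a b).2.mp (by exact_mod_cast hab)
    exact_mod_cast this
  · intro w hw a p _
    have hw1 : List.ofFn (fun a => (ppt σ (w a).1, ppt τ (w a).2)) ∈ step K P Hs := by
      rw [hfix]; exact hw
    rw [mem_step, good_iff] at hw1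
    obtain ⟨v, hv, hag⟩ := hw1.2 a.val a.2 (ppt σ p) (mem_pts.mpr ⟨p, rfl⟩)
    obtain ⟨v', rfl⟩ := hfun v hv
    rw [agree_iff (by simp)] at hag
    refine ⟨v', hv, ?_, ?_⟩
    · intro b hb
      have h3 := (hag b.val (by simp)).2 (fun h => hb (Fin.ext h))
      simp only [List.getElem_ofFn, Prod.mk.injEq] at h3
      exact Prod.ext (ppt_injective σ h3.1).symm (ppt_injective τ h3.2).symm
    · have h3 := (hag a.val (by simp)).1 rfl
      simp only [List.getElem_ofFn] at h3
      exact ppt_injective σ h3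
  · obtain ⟨w0, hw0⟩ := List.exists_mem_of_ne_nil _ h
    obtain ⟨w0', rfl⟩ := hfun w0 hw0
    exact ⟨w0', hw0⟩

section tree

variable {m : ℕ} {T : SimpleGraph (Fin m)}

/-- each vertex of a tree other than the root has a neighbour closer to the root -/
theorem exists_parent (hT : T.IsTree) (r t : Fin m) {n : ℕ} (h : T.dist r t = n + 1) :
    ∃ s, T.Adj s t ∧ T.dist r s = n := by
  obtain ⟨p, hp⟩ := hT.connected.exists_walk_length_eq_dist t r
  rw [SimpleGraph.dist_comm, h] at hp
  cases p with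
  | nil => simp at hp
  | @cons _ s _ hadj q =>
    refine ⟨s, hadj.symm, ?_⟩
    have h1 : T.dist s r ≤ q.length := SimpleGraph.dist_le q
    have h2 := hT.dist_ne_of_adj r hadj
    rw [SimpleGraph.Walk.length_cons] at hp
    rw [SimpleGraph.dist_comm] at h1
    have h3 : T.dist r t ≤ T.dist r s + 1 := by
      have := hT.connected.dist_triangle (u := r) (v := s) (w := t)
      rwa [SimpleGraph.dist_eq_one_iff_adj.2 hadj.symm] at this
    omega

/-- the neighbour closer to the root is unique -/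
theorem parent_unique (hT : T.IsTree) {r t s s' : Fin m} (h : T.Adj s t) (h' : T.Adj s' t)
    (hd : T.dist r t = T.dist r s + 1) (hd' : T.dist r t = T.dist r s' + 1) : s = s' := by
  have key : ∀ s : Fin m, T.Adj s t → T.dist r t = T.dist r s + 1 →
      ∃ p : T.Walk r t, p.IsPath ∧ p.penultimate = s := by
    intro s h hd
    obtain ⟨p, hp⟩ := hT.connected.exists_walk_length_eq_dist r s
    refine ⟨p.concat h, ?_, ?_⟩
    · apply SimpleGraph.Walk.isPath_of_length_eq_dist
      rw [SimpleGraph.Walk.length_concat, hp, hd]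
    · simp
  obtain ⟨p, hp, hps⟩ := key s h hd
  obtain ⟨p', hp', hps'⟩ := key s' h' hd'
  have h3 := (hT.existsUnique_path r t).unique hp hp'
  rw [← hps, ← hps', h3]

/-- The pebbles may be placed consistently on all the bags of a tree decomposition. -/
theorem exists_pebbles {α β : Type} [DecidableEq α] {X Y : α → ℤ} {X' Y' : β → ℤ} {S : Finset α}
    {K : ℕ} {H : Set (Fin K → α × β)} (hH : Game X Y X' Y' S K H) (hT : T.IsTree)
    {B : Fin m → Finset α} (hB : ∀ t, B t ⊆ S) {k : ℕ} (hcard : ∀ t, (B t).card ≤ k)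
    (hK : 2 * k ≤ K) {w₀ : Fin K → α × β} (hw₀ : w₀ ∈ H) (r : Fin m) :
    ∀ n : ℕ, ∃ w : Fin m → Fin K → α × β,
      (∀ t, T.dist r t ≤ n → w t ∈ H ∧ ∀ p ∈ B t, ∃ a, (w t a).1 = p) ∧
      ∀ s t, T.Adj s t → T.dist r t = T.dist r s + 1 → T.dist r t ≤ n → ∀ a b,
        (w s a).1 = (w t b).1 → (w s a).1 ∈ B s → (w s a).2 = (w t b).2 := by
  classical
  intro n
  induction n with
  | zero =>
    obtain ⟨w1, hw1, h1, _⟩ := hH.place hw₀ (Z := ∅) (Q := B r) (by simp) (hB r) (by
      have := hcard r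
      simp only [Finset.card_empty]
      omega)
    refine ⟨fun _ => w1, ?_, ?_⟩
    · intro t ht
      have h2 : T.dist r t = 0 := by omega
      rw [hT.connected.dist_eq_zero_iff] at h2
      subst h2
      exact ⟨hw1, h1⟩
    · intro s t _ h2 h3
      omega
  | succ n ih =>
    obtain ⟨w, hw1, hw2⟩ := ih
    have hex : ∀ t, ∃ w' : Fin K → α × β, T.dist r t = n + 1 →
        w' ∈ H ∧ (∀ p ∈ B t, ∃ a, (w' a).1 = p) ∧ ∀ s, T.Adj s t → T.dist r s = n →
          ∀ p ∈ B s, ∃ a, (w' a).1 = p ∧ w' a = w s a := by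
      intro t
      by_cases ht : T.dist r t = n + 1
      · obtain ⟨s, hs, hsn⟩ := exists_parent hT r t ht
        obtain ⟨hwH, hwB⟩ := hw1 s hsn.le
        obtain ⟨w', hw', h1, h2⟩ := hH.place hwH (Z := B s) (Q := B t) hwB (hB t) (by
          have := hcard s
          have := hcard t
          omega)
        refine ⟨w', fun _ => ⟨hw', h1, fun s' hs' hsn' => ?_⟩⟩
        have : s' = s := parent_unique (r := r) hT hs' hs (by omega) (by omega)
        rw [this]
        exact h2
      · exact ⟨w₀, fun h => absurd h ht⟩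
    choose w' hw' using hex
    refine ⟨fun t => if T.dist r t = n + 1 then w' t else w t, ?_, ?_⟩
    · intro t ht
      by_cases h : T.dist r t = n + 1
      · simp only [if_pos h]
        exact ⟨(hw' t h).1, (hw' t h).2.1⟩
      · simp only [if_neg h]
        exact hw1 t (by omega)
    · intro s t hst hd ht a b hab hBs
      by_cases h : T.dist r t = n + 1
      · have hs : T.dist r s = n := by omega
        have hs' : ¬ T.dist r s = n + 1 := by omega
        simp only [if_neg hs', if_pos h] at hab hBs ⊢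
        obtain ⟨c, hc1, hc2⟩ := (hw' t h).2.2 s hst hs _ hBs
        have e1 := hH.cons _ (hw' t h).1 c b (by rw [hc1, hab])
        have e2 := hH.cons _ (hw1 s hs.le).1 a c (by rw [← hc2, hc1])
        rw [e2, ← hc2, e1]
      · have hs' : ¬ T.dist r s = n + 1 := by omega
        simp only [if_neg hs', if_neg h] at hab hBs ⊢
        exact hw2 s t hst hd (by omega) a b hab hBs

/-- the embedding defined by the pebbles on the bags -/
theorem exists_values {α β : Type} [DecidableEq α] {X Y : α → ℤ} {X' Y' : β → ℤ} {S : Finset α}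
    {K : ℕ} {H : Set (Fin K → α × β)} (hH : Game X Y X' Y' S K H) (hT : T.IsTree)
    {B : Fin m → Finset α} (hB : ∀ t, B t ⊆ S) {k : ℕ} (hcard : ∀ t, (B t).card ≤ k)
    (hcov : ∀ v, ∃ t, v ∈ B t) (hconn : ∀ v, (T.induce {t | v ∈ B t}).Connected)
    (hK : 2 * k ≤ K) {w₀ : Fin K → α × β} (hw₀ : w₀ ∈ H) :
    ∃ ψ : α → β, ∀ t, ∀ u ∈ B t, ∀ v ∈ B t,
      (X u < X v → X' (ψ u) < X' (ψ v)) ∧ (Y u < Y v → Y' (ψ u) < Y' (ψ v)) := by
  classical
  obtain ⟨r⟩ := hT.connected.nonempty
  obtain ⟨n, hn⟩ : ∃ n, ∀ t, T.dist r t ≤ n := by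
    obtain ⟨n, hn⟩ := (Finset.univ.image fun t => T.dist r t).bddAbove
    exact ⟨n, fun t => hn (by simp)⟩
  obtain ⟨w, hw1, hw2⟩ := exists_pebbles hH hT hB hcard hK hw₀ r n
  have hadj : ∀ s t, T.Adj s t → ∀ v, v ∈ B s → v ∈ B t → ∀ a b, (w s a).1 = v →
      (w t b).1 = v → (w s a).2 = (w t b).2 := by
    intro s t hst v hs ht a b ha hb
    rcases hT.dist_eq_dist_add_one_of_adj r hst with h | h
    · exact (hw2 t s hst.symm h (hn s) b a (by rw [ha, hb]) (by rw [hb]; exact ht)).symm
    · exact hw2 s t hst h (hn t) a b (by rw [ha, hb]) (by rw [ha]; exact hs)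
  have hall : ∀ v, ∀ s t : {t | v ∈ B t}, ∀ a b, (w s a).1 = v → (w t b).1 = v →
      (w s a).2 = (w t b).2 := by
    intro v s t
    obtain ⟨p⟩ := (hconn v).preconnected s t
    induction p with
    | nil =>
      intro a b ha hb
      exact hH.cons _ (hw1 _ (hn _)).1 a b (by rw [ha, hb])
    | @cons x y z hxy q ih =>
      intro a b ha hb
      obtain ⟨c, hc⟩ := (hw1 y (hn _)).2 v y.2
      rw [hadj x.1 y.1 hxy v x.2 y.2 a c ha hc]
      exact ih c b hc hb
  choose t₀ ht₀ using hcov
  have ha₀ : ∀ v, ∃ a, (w (t₀ v) a).1 = v := fun v => (hw1 _ (hn _)).2 v (ht₀ v)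
  choose a₀ ha₀ using ha₀
  refine ⟨fun v => (w (t₀ v) (a₀ v)).2, ?_⟩
  intro t u hu v hv
  obtain ⟨a, ha⟩ := (hw1 t (hn t)).2 u hu
  obtain ⟨b, hb⟩ := (hw1 t (hn t)).2 v hv
  have e1 := hall u ⟨t₀ u, ht₀ u⟩ ⟨t, hu⟩ (a₀ u) a (ha₀ u) ha
  have e2 := hall v ⟨t₀ v, ht₀ v⟩ ⟨t, hv⟩ (a₀ v) b (ha₀ v) hb
  simp only at e1 e2 ⊢
  rw [e1, e2]
  refine ⟨fun h => ?_, fun h => ?_⟩
  · exact hH.monoX _ (hw1 t (hn t)).1 a b (by rw [ha, hb]; exact h)
  · exact hH.monoY _ (hw1 t (hn t)).1 a b (by rw [ha, hb]; exact h)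

end tree

/-- If the algorithm with `K` pebbles accepts a pattern of treewidth at most `w`, where
`2 (w + 1) ≤ K`, then the text contains the pattern. -/
theorem contains_of_alg {K k : ℕ} (hK : 2 * (k + 1) ≤ K) {σ τ : Permutation}
    (hσ : TreewidthLE (permGraph σ) k) (h : alg K (values σ) (values τ) = true) :
    Contains τ σ := by
  classical
  by_cases h0 : σ.1 = 0
  · refine ⟨fun i => absurd i.isLt (by omega), fun i => absurd i.isLt (by omega),
      fun i => absurd i.isLt (by omega)⟩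
  obtain ⟨H, hH, w₀, hw₀⟩ := exists_game h h0
  obtain ⟨m, T, B, hT, hcov, hedge, hconn, hcard⟩ := hσ
  obtain ⟨ψ, hψ⟩ := exists_values hH hT (fun t => Finset.subset_univ _) hcard hcov hconn hK hw₀
  have h1 : ∀ (d : ℕ) (i j : Fin σ.1), j.val = i.val + d + 1 → (ψ i).val < (ψ j).val := by
    intro d
    induction d with
    | zero =>
      intro i j hij
      obtain ⟨t, ht1, ht2⟩ := hedge i j (by
        rw [permGraph, SimpleGraph.fromRel_adj]
        refine ⟨fun h => ?_, Or.inl (Or.inl (by omega))⟩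
        rw [h] at hij
        omega)
      have := (hψ t i ht1 j ht2).1 (by omega)
      exact_mod_cast this
    | succ d ih =>
      intro i j hij
      have hi : i.val + 1 < σ.1 := by have := j.2; omega
      have e1 := ih ⟨i.val + 1, hi⟩ j (by simp only; omega)
      obtain ⟨t, ht1, ht2⟩ := hedge i ⟨i.val + 1, hi⟩ (by
        rw [permGraph, SimpleGraph.fromRel_adj]
        refine ⟨fun h => ?_, Or.inl (Or.inl rfl)⟩
        have := congrArg Fin.val h
        simp only at this
        omega)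
      have := (hψ t _ ht1 _ ht2).1 (by simp only; omega)
      have e2 : (ψ i).val < (ψ ⟨i.val + 1, hi⟩).val := by exact_mod_cast this
      omega
  have h2 : ∀ (d : ℕ) (i j : Fin σ.1), (σ.2 j).val = (σ.2 i).val + d + 1 →
      (τ.2 (ψ i)).val < (τ.2 (ψ j)).val := by
    intro d
    induction d with
    | zero =>
      intro i j hij
      obtain ⟨t, ht1, ht2⟩ := hedge i j (by
        rw [permGraph, SimpleGraph.fromRel_adj]
        refine ⟨fun h => ?_, Or.inl (Or.inr (by omega))⟩
        rw [h] at hij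
        omega)
      have := (hψ t i ht1 j ht2).2 (by omega)
      exact_mod_cast this
    | succ d ih =>
      intro i j hij
      have hi : (σ.2 i).val + 1 < σ.1 := by have := (σ.2 j).2; omega
      obtain ⟨i', hi'⟩ : ∃ i', σ.2 i' = ⟨(σ.2 i).val + 1, hi⟩ := σ.2.surjective _
      have hv : (σ.2 i').val = (σ.2 i).val + 1 := by rw [hi']
      have e1 := ih i' j (by omega)
      obtain ⟨t, ht1, ht2⟩ := hedge i i' (by
        rw [permGraph, SimpleGraph.fromRel_adj]
        refine ⟨fun h => ?_, Or.inl (Or.inr hv.symm)⟩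
        rw [← h] at hv
        omega)
      have := (hψ t _ ht1 _ ht2).2 (by omega)
      have e2 : (τ.2 (ψ i)).val < (τ.2 (ψ i')).val := by exact_mod_cast this
      omega
  refine ⟨ψ, ?_, ?_⟩
  · intro i j hij
    have hij' : i.val < j.val := hij
    exact h1 (j.val - i.val - 1) i j (by omega)
  · intro i j
    constructor
    · intro hij
      have hij' : (σ.2 i).val < (σ.2 j).val := hij
      exact h2 ((σ.2 j).val - (σ.2 i).val - 1) i j (by omega)
    · intro hij
      rcases lt_trichotomy (σ.2 i) (σ.2 j) with h3 | h3 | h3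
      · exact h3
      · rw [σ.2.injective h3] at hij
        exact absurd hij (lt_irrefl _)
      · have h3' : (σ.2 j).val < (σ.2 i).val := h3
        have := h2 ((σ.2 i).val - (σ.2 j).val - 1) j i (by omega)
        have h4 : τ.2 (ψ j) < τ.2 (ψ i) := this
        exact absurd hij (lt_asymm h4)

theorem alg_iff {K k : ℕ} (hK : 2 * (k + 1) ≤ K) {σ τ : Permutation}
    (hσ : TreewidthLE (permGraph σ) k) :
    alg K (values σ) (values τ) = true ↔ Contains τ σ :=
  ⟨contains_of_alg hK hσ, alg_of_contains⟩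

end Pool.Agent.PPMX
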