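import Mathlib
import Pool.Agent.Lib_helper88.PolyTime.Size
import Pool.Agent.Lib_helper89.PPM.PTLib

/-!
# Iteration with explicit bounds, and functions computable in a given time
-/

set_option autoImplicit false
set_option linter.dupNamespace false

namespace Pool.Agent.PT

open Function N487b59b3

/-- iteration along a list: the running time is polynomial in the length of the input and in a
bound for the lengths of the intermediate results -/
theorem foldl_runs {ε σ α : Type} [N487b59b3 ε] [N487b59b3 σ] [N487b59b3 α] {g : ε × σ × α → σ}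
    (hg : PT g) : ∃ (c : Cmd) (q : Polynomial ℕ), ∀ (e : ε) (s : σ) (l : List α) (B : ℕ),
      (∀ l', l' <+: l → (enc (l'.foldl (fun s a => g (e, s, a)) s)).length ≤ B) →
      Runs c (single 0 (enc (e, s, l))) (single 0 (enc (l.foldl (fun s a => g (e, s, a)) s)))
        (q.eval ((enc (e, s, l)).length + B)) := by
  obtain ⟨c, p, hc⟩ := hg
  have hloop : ∀ (e : ε) (B : ℕ) (l : List α) (s : σ),
      (∀ a ∈ l, (enc a).length ≤ B) → (enc e).length ≤ B →
      (∀ l', l' <+: l → (enc (l'.foldl (fun s a => g (e, s, a)) s)).length ≤ B) →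
      Runs (.loop 0 isne (foldBody c)) (st [enc l, [], enc e, enc s, [], []])
        (st [[], [], enc e, enc (l.foldl (fun s a => g (e, s, a)) s), [], []])
        (l.length * (80 * B + p.eval (5 * B + 2) + 21) + 1) := by
    intro e B l
    induction l with
    | nil =>
      intro s _ _ _
      refine (Runs.loop_f ?_).congr ?_ (by omega)
      · simp [st_apply, enc_nil, isne]
      · simp [enc_nil]
    | cons a l ih =>
      intro s h1 h2 h3
      have hs : (enc s).length ≤ B := by simpa using h3 [] (List.nil_prefix)
      have hs' : (enc (g (e, s, a))).length ≤ B := by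
        simpa using h3 [a] (by simp)
      have ha := h1 a (by simp)
      have hb := foldBody_runs (a := enc a) (e := enc e) (s := enc s) (s' := enc (g (e, s, a)))
        (hc (e, s, a)) (enc l)
      have hr := ih (g (e, s, a)) (fun b hb => h1 b (by simp [hb])) h2
        (fun l' hl' => by
          have := h3 (a :: l') (by simpa using hl')
          simpa using this)
      obtain ⟨b, m, hbm⟩ := delimit_ne_nil (enc a)
      have hlen : (enc (e, s, a)).length ≤ 5 * B + 2 := by
        rw [enc_pair, enc_pair, List.length_append, List.length_append, length_delimit,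
          length_delimit]
        omega
      have hp := poly_mono p hlen
      refine (Runs.loop_t ?_ hb hr).mono ?_
      · simp [st_apply, isne, hbm]
      · rw [List.length_cons, add_one_mul]
        omega
  refine ⟨.seq (undelim 0 1) (.seq (moveRev 1 2) (.seq (undelim 0 1) (.seq (moveRev 1 3)
    (.seq (.loop 0 isne (foldBody c)) (.seq (clear 2) (move 3 0 1)))))),
    20 * Polynomial.X + (Polynomial.X * (80 * Polynomial.X +
      p.comp (5 * Polynomial.X + 2) + 21) + 1) + 2 * Polynomial.X + 8 * Polynomial.X + 20, ?_⟩
  intro e s l B hB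
  set n := (enc (e, s, l)).length with hn
  have hlen : n = 2 * (enc e).length + 1 + (2 * (enc s).length + 1 + (enc l).length) := by
    rw [hn, enc_pair, enc_pair, List.length_append, List.length_append, length_delimit,
      length_delimit]
  have h1 : Runs (undelim 0 1) (st [enc (e, s, l), [], [], [], [], []])
      (st [delimit (enc s) ++ enc l, (enc e).reverse, [], [], [], []]) (5 * (enc e).length + 2) := by
    simpa using undelim_st (i := 0) (j := 1) [enc (e, s, l), [], [], [], [], []] (enc e)
      (delimit (enc s) ++ enc l) (by decide) (by simp) (by simp) (by simp [enc_pair])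
  have h2 : Runs (moveRev 1 2) (st [delimit (enc s) ++ enc l, (enc e).reverse, [], [], [], []])
      (st [delimit (enc s) ++ enc l, [], enc e, [], [], []]) (4 * (enc e).length + 1) := by
    simpa using moveRev_st (i := 1) (j := 2)
      [delimit (enc s) ++ enc l, (enc e).reverse, [], [], [], []] (by decide) (by simp) (by simp)
  have h3 : Runs (undelim 0 1) (st [delimit (enc s) ++ enc l, [], enc e, [], [], []])
      (st [enc l, (enc s).reverse, enc e, [], [], []]) (5 * (enc s).length + 2) := by
    simpa using undelim_st (i := 0) (j := 1) [delimit (enc s) ++ enc l, [], enc e, [], [], []]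
      (enc s) (enc l) (by decide) (by simp) (by simp) (by simp)
  have h4 : Runs (moveRev 1 3) (st [enc l, (enc s).reverse, enc e, [], [], []])
      (st [enc l, [], enc e, enc s, [], []]) (4 * (enc s).length + 1) := by
    simpa using moveRev_st (i := 1) (j := 3)
      [enc l, (enc s).reverse, enc e, [], [], []] (by decide) (by simp) (by simp)
  have hmem : ∀ a ∈ l, (enc a).length ≤ (enc l).length := fun a ha => length_enc_mem ha
  have hpre : ∀ l', l' <+: l →
      (enc (l'.foldl (fun s a => g (e, s, a)) s)).length ≤ n + B :=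
    fun l' hl' => (hB l' hl').trans (Nat.le_add_left _ _)
  have h5 := hloop e (n + B) l s (fun a ha => by have := hmem a ha; omega) (by omega) hpre
  have hout : (enc (l.foldl (fun s a => g (e, s, a)) s)).length ≤ B := hB l (List.prefix_refl l)
  set r := l.foldl (fun s a => g (e, s, a)) s with hr
  have h6 : Runs (clear 2) (st [[], [], enc e, enc r, [], []])
      (st [[], [], [], enc r, [], []]) (2 * (enc e).length + 1) := by
    simpa using clear_st 2 [[], [], enc e, enc r, [], []] (by simp)
  have h7 : Runs (move 3 0 1) (st [[], [], [], enc r, [], []])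
      (st [enc r, [], [], [], [], []]) (8 * (enc r).length + 2) := by
    simpa using move_st (i := 3) (j := 0) (k := 1) [[], [], [], enc r, [], []]
      (by decide) (by decide) (by decide) (by simp) (by simp) (by simp)
  have hl1 : l.length ≤ n + B := by
    have := length_le_enc l
    omega
  have hmul := Nat.mul_le_mul_right (80 * (n + B) + p.eval (5 * (n + B) + 2) + 21) hl1
  rw [single_eq_st _ 5, single_eq_st _ 5]
  refine (h1.seq (h2.seq (h3.seq (h4.seq (h5.seq (h6.seq h7)))))).mono ?_
  simp only [Polynomial.eval_add, Polynomial.eval_mul, Polynomial.eval_X, Polynomial.eval_ofNat,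
    Polynomial.eval_comp, Polynomial.eval_one]
  omega

/-- `f a` is computed in time polynomial in the length of `a` and in `T a`. -/
def RT {α β : Type} [N487b59b3 α] [N487b59b3 β] (f : α → β) (T : α → ℕ) : Prop :=
  ∃ (c : Cmd) (p : Polynomial ℕ), ∀ a : α,
    Runs c (single 0 (enc a)) (single 0 (enc (f a))) (p.eval ((enc a).length + T a))

variable {α β γ δ ε σ : Type} [N487b59b3 α] [N487b59b3 β] [N487b59b3 γ] [N487b59b3 δ]
  [N487b59b3 ε] [N487b59b3 σ]

theorem RT.of_PT {f : α → β} (hf : PT f) (T : α → ℕ) : RT f T := by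
  obtain ⟨c, p, hc⟩ := hf
  exact ⟨c, p, fun a => (hc a).mono (poly_mono p (Nat.le_add_right _ _))⟩

theorem RT.length_le {f : α → β} {T : α → ℕ} (hf : RT f T) :
    ∃ q : Polynomial ℕ, ∀ a, (enc (f a)).length ≤ q.eval ((enc a).length + T a) := by
  obtain ⟨c, p, hc⟩ := hf
  refine ⟨Polynomial.X + p, fun a => ?_⟩
  have := (hc a).length_le 0
  simp only [single, if_true] at this
  rw [Polynomial.eval_add, Polynomial.eval_X]
  omega

theorem RT.comp {f : α → β} {g : β → γ} {T : α → ℕ} {T' : β → ℕ} (hg : RT g T') (hf : RT f T)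
    (h : ∀ a, T' (f a) ≤ T a) : RT (fun a => g (f a)) T := by
  obtain ⟨q, hq⟩ := hf.length_le
  obtain ⟨c, p, hc⟩ := hf
  obtain ⟨d, r, hd⟩ := hg
  refine ⟨.seq c d, p + r.comp (q + Polynomial.X), fun a => ?_⟩
  refine ((hc a).seq (hd (f a))).mono ?_
  rw [Polynomial.eval_add, Polynomial.eval_comp, Polynomial.eval_add, Polynomial.eval_X]
  have h1 := hq a
  have h2 := h a
  have h3 := poly_mono r (show (enc (f a)).length + T' (f a) ≤
    q.eval ((enc a).length + T a) + ((enc a).length + T a) by omega)
  omega

theorem RT.comp_PT {f : α → β} {g : β → γ} {T : α → ℕ} (hg : PT g) (hf : RT f T) :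
    RT (fun a => g (f a)) T := by
  refine RT.comp (T' := fun _ => 0) (RT.of_PT hg _) hf fun a => Nat.zero_le _

theorem RT.mono {f : α → β} {T T' : α → ℕ} (hf : RT f T) (h : ∀ a, T a ≤ T' a) : RT f T' := by
  obtain ⟨c, p, hc⟩ := hf
  exact ⟨c, p, fun a => (hc a).mono (poly_mono p (Nat.add_le_add_left (h a) _))⟩

theorem RT.fold {g : ε × σ × α → σ} {e : δ → ε} {s : δ → σ} {l : δ → List α}
    (hg : PT g) (he : PT e) (hs : PT s) (hl : PT l) {T : δ → ℕ} (q : Polynomial ℕ)
    (hq : ∀ d l', l' <+: l d → (enc (l'.foldl (fun s a => g (e d, s, a)) (s d))).length ≤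
      q.eval ((enc d).length + T d)) :
    RT (fun d => (l d).foldl (fun s a => g (e d, s, a)) (s d)) T := by
  have h1 : PT (fun d => (e d, s d, l d)) := he.pair (hs.pair hl)
  obtain ⟨q1, hq1⟩ := h1.length_bound
  obtain ⟨c1, p1, hc1⟩ := h1
  obtain ⟨c, p, hc⟩ := foldl_runs hg
  refine ⟨.seq c1 c, p1 + p.comp (q1 + q), fun d => ?_⟩
  have h2 := hc (e d) (s d) (l d) _ (hq d)
  refine ((hc1 d).seq h2).mono ?_
  rw [Polynomial.eval_add, Polynomial.eval_comp, Polynomial.eval_add]
  have h3 := poly_mono p1 (show (enc d).length ≤ (enc d).length + T d by omega)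
  have h4 := (hq1 d).trans (poly_mono q1 (show (enc d).length ≤ (enc d).length + T d by omega))
  have h5 := poly_mono p (show (enc (e d, s d, l d)).length + q.eval ((enc d).length + T d) ≤
    q1.eval ((enc d).length + T d) + q.eval ((enc d).length + T d) by omega)
  omega

/-- iteration along a list where the intermediate results are polynomially bounded -/
theorem PT.foldI {g : ε × σ × α → σ} {e : δ → ε} {s : δ → σ} {l : δ → List α}
    (hg : PT g) (he : PT e) (hs : PT s) (hl : PT l) (q : Polynomial ℕ)
    (hq : ∀ d l', l' <+: l d → (enc (l'.foldl (fun s a => g (e d, s, a)) (s d))).length ≤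
      q.eval (enc d).length) :
    PT (fun d => (l d).foldl (fun s a => g (e d, s, a)) (s d)) := by
  obtain ⟨c, p, hc⟩ := RT.fold (T := fun _ => 0) hg he hs hl q (by simpa using hq)
  exact ⟨c, p, by simpa using hc⟩

/-- iteration of a function where the intermediate results are polynomially bounded -/
theorem RT.iterI {g : ε × σ → σ} {e : δ → ε} {s : δ → σ} {n : δ → U}
    (hg : PT g) (he : PT e) (hs : PT s) (hn : PT n) {T : δ → ℕ} (q : Polynomial ℕ)
    (hq : ∀ d m, m ≤ (n d).val → (enc ((fun s => g (e d, s))^[m] (s d))).length ≤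
      q.eval ((enc d).length + T d)) :
    RT (fun d => (fun s => g (e d, s))^[(n d).val] (s d)) T := by
  have h1 := RT.fold (g := fun p : ε × σ × Unit => g (p.1, p.2.1))
    (hg.comp (PT.fst.pair PT.snd.comp_fst)) he hs hn.toUnits (T := T) q (by
      intro d l' hl'
      have h2 : l' = List.replicate l'.length () := List.eq_replicate_iff.2 ⟨rfl, fun _ _ => rfl⟩
      have h3 : l'.length ≤ (n d).val := by
        have := hl'.length_le
        simpa using this
      have h4 := hq d l'.length h3
      rw [h2]
      beta_reduce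
      rw [foldl_units (fun s => g (e d, s))]
      exact h4)
  obtain ⟨c, p, hc⟩ := h1
  refine ⟨c, p, fun a => ?_⟩
  have h2 := hc a
  beta_reduce at h2
  rw [foldl_units (fun s => g (e a, s))] at h2
  exact h2

theorem PT.iterI {g : ε × σ → σ} {e : δ → ε} {s : δ → σ} {n : δ → U}
    (hg : PT g) (he : PT e) (hs : PT s) (hn : PT n) (q : Polynomial ℕ)
    (hq : ∀ d m, m ≤ (n d).val → (enc ((fun s => g (e d, s))^[m] (s d))).length ≤
      q.eval (enc d).length) :
    PT (fun d => (fun s => g (e d, s))^[(n d).val] (s d)) := by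
  obtain ⟨c, p, hc⟩ := RT.iterI (T := fun _ => 0) hg he hs hn q (by simpa using hq)
  exact ⟨c, p, by simpa using hc⟩

/-- powers of unary numbers, computed in time polynomial in the result -/
theorem RT.pow {M K : α → U} (hM : PT M) (hK : PT K) (h1 : ∀ a, 1 ≤ (M a).val) :
    RT (fun a => (U.mk ((M a).val ^ (K a).val), a)) (fun a => (M a).val ^ (K a).val) := by
  have hit : ∀ (a : α) (m : ℕ), (fun s : U × α => (U.mk (s.1.val * (M s.2).val), s.2))^[m]
      (U.mk 1, a) = (U.mk ((M a).val ^ m), a) := by
    intro a m
    induction m with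
    | zero => simp
    | succ m ih => rw [Function.iterate_succ_apply', ih, pow_succ]
  have h := RT.iterI (g := fun p : Bool × (U × α) => (U.mk (p.2.1.val * (M p.2.2).val), p.2.2))
    (e := fun _ : α => true) (s := fun a => (U.mk 1, a)) (n := K)
    ((PT.umul PT.snd.comp_fst (hM.comp PT.snd.comp_snd)).pair PT.snd.comp_snd)
    (PT.const true) ((PT.const _).pair PT.id) hK
    (T := fun a => (M a).val ^ (K a).val) (2 * Polynomial.X + 1) (by
      intro a m hm
      beta_reduce
      rw [hit a m, length_enc_pair, length_enc_U]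
      simp only [Polynomial.eval_add, Polynomial.eval_mul, Polynomial.eval_X,
        Polynomial.eval_ofNat, Polynomial.eval_one]
      have := Nat.pow_le_pow_right (h1 a) hm
      omega)
  obtain ⟨c, p, hc⟩ := h
  refine ⟨c, p, fun a => ?_⟩
  have h2 := hc a
  beta_reduce at h2
  rw [hit a] at h2
  exact h2

end Pool.Agent.PT
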