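import Mathlib
import Pool.Agent.Lib_helper48.PPMX.GT
import Pool.Agent.Lib_helper89.PPM.AlgCorrect

/-!
# The pebble game algorithm with the number of pebbles as a part of the input

The number of positions is cut off at `N`; the running time is polynomial in the size of the
input, which contains `N` in unary.
-/

set_option autoImplicit false
set_option linter.dupNamespace false

namespace Pool.Agent.PPMX

open Pool.Agent.PPM Pool.Agent.PT

/-- the next tuples, at most `N` of them -/
def tupStep (N : ℕ) (L : List Peb) (s : List (List Peb)) : List (List Peb) :=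
  (s.flatMap fun t => L.map fun p => p :: t).take N

/-- the tuples of length `k`, at most `N` of them -/
def tuplesB (N : ℕ) (L : List Peb) (k : ℕ) : List (List Peb) := (tupStep N L)^[k] [[]]

theorem length_tuples (L : List Peb) (k : ℕ) : (tuples L k).length = L.length ^ k := by
  induction k with
  | zero => rfl
  | succ k ih =>
    have : ∀ s : List (List Peb), (s.flatMap fun t => L.map fun p => p :: t).length =
        s.length * L.length := by
      intro s
      induction s with
      | nil => simp
      | cons a s ihs =>
        rw [List.flatMap_cons, List.length_append, ihs, List.length_map, List.length_cons]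
        ring
    rw [tuples, this, ih, pow_succ]

theorem tuplesB_eq {N : ℕ} {L : List Peb} {k : ℕ} (h : ∀ j ≤ k, L.length ^ j ≤ N) :
    tuplesB N L k = tuples L k := by
  induction k with
  | zero => rfl
  | succ k ih =>
    rw [tuplesB, Function.iterate_succ_apply']
    have h1 : (tupStep N L)^[k] [[]] = tuples L k := ih fun j hj => h j (by omega)
    rw [h1]
    show (tuples L (k + 1)).take N = tuples L (k + 1)
    rw [List.take_of_length_le]
    rw [length_tuples]
    exact h _ le_rfl

theorem enc_length_le {α : Type} [N487b59b3 α] {l : List α} {m : ℕ}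
    (h : ∀ a ∈ l, (enc a).length ≤ m) : (enc l).length ≤ l.length * (2 * m + 1) := by
  induction l with
  | nil => simp [enc_nil]
  | cons a l ih =>
    rw [length_enc_cons, List.length_cons]
    have h1 := h a (by simp)
    have h2 := ih fun b hb => h b (by simp [hb])
    nlinarith

theorem tuplesB_mem {N : ℕ} {L : List Peb} {k : ℕ} : ∀ t ∈ tuplesB N L k,
    t.length = k ∧ ∀ p ∈ t, p ∈ L := by
  induction k with
  | zero =>
    intro t ht
    have : t = [] := by simpa [tuplesB] using ht
    subst this
    simp
  | succ k ih =>
    intro t ht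
    rw [tuplesB, Function.iterate_succ_apply'] at ht
    have ht' := List.mem_of_mem_take ht
    rw [List.mem_flatMap] at ht'
    obtain ⟨s, hs, hts⟩ := ht'
    rw [List.mem_map] at hts
    obtain ⟨p, hp, rfl⟩ := hts
    obtain ⟨h1, h2⟩ := ih s hs
    refine ⟨by rw [List.length_cons, h1], fun q hq => ?_⟩
    rw [List.mem_cons] at hq
    rcases hq with rfl | hq
    · exact hp
    · exact h2 q hq

theorem length_tuplesB (N : ℕ) (L : List Peb) (k : ℕ) : (tuplesB N L k).length ≤ N + 1 := by
  cases k with
  | zero => simp [tuplesB]
  | succ k =>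
    rw [tuplesB, Function.iterate_succ_apply']
    have := List.length_take_le N (((tupStep N L)^[k] [[]]).flatMap fun t => L.map fun p => p :: t)
    exact this.trans (Nat.le_succ N)

theorem enc_tuplesB (N : ℕ) (L : List Peb) (k : ℕ) : (enc (tuplesB N L k)).length ≤
    (N + 1) * (2 * (k * (2 * (enc L).length + 1)) + 1) := by
  refine (enc_length_le (m := k * (2 * (enc L).length + 1)) fun t ht => ?_).trans ?_
  · obtain ⟨h1, h2⟩ := tuplesB_mem t ht
    have := enc_length_le (l := t) (m := (enc L).length) fun p hp => length_enc_mem (h2 p hp)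
    rwa [h1] at this
  · exact Nat.mul_le_mul_right _ (length_tuplesB N L k)

section

variable {δ : Type} [N487b59b3 δ]

theorem pt_tupStep {N : δ → U} {L : δ → List Peb} {s : δ → List (List Peb)} (hN : PT N)
    (hL : PT L) (hs : PT s) : PT (fun d => tupStep (N d).val (L d) (s d)) := by
  have h1 : PT (fun p : List Peb × List Peb => p.1.map fun q => q :: p.2) :=
    PT.map (g := fun x : List Peb × Peb => x.2 :: x.1) (e := fun p : List Peb × List Peb => p.2)
      (l := fun p => p.1) (PT.cons PT.snd PT.fst) PT.snd PT.fst
  exact PT.take (PT.flatMap h1 hL hs) hN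

theorem pt_tuplesB {N : δ → U} {L : δ → List Peb} {k : δ → U} (hN : PT N) (hL : PT L)
    (hk : PT k) : PT (fun d => tuplesB (N d).val (L d) (k d).val) := by
  obtain ⟨qN, hqN⟩ := hN.length_bound
  obtain ⟨qL, hqL⟩ := hL.length_bound
  obtain ⟨qk, hqk⟩ := hk.length_bound
  refine PT.iterI (g := fun p : (U × List Peb) × List (List Peb) => tupStep p.1.1.val p.1.2 p.2)
    (e := fun d => (N d, L d)) (s := fun _ => [[]]) (n := k)
    (pt_tupStep PT.fst.comp_fst PT.fst.comp_snd PT.snd) (hN.pair hL) (PT.const _) hk
    ((qN + 1) * (2 * (qk * (2 * qL + 1)) + 1)) ?_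
  intro d m hm
  refine (enc_tuplesB (N d).val (L d) m).trans ?_
  have h1 := hqN d
  have h2 := hqL d
  have h3 := hqk d
  rw [length_enc_U] at h1 h3
  simp only [Polynomial.eval_add, Polynomial.eval_mul, Polynomial.eval_one, Polynomial.eval_ofNat]
  have h4 : m * (2 * (enc (L d)).length + 1) ≤
      qk.eval (enc d).length * (2 * qL.eval (enc d).length + 1) :=
    Nat.mul_le_mul (hm.trans h3) (by omega)
  exact Nat.mul_le_mul (by omega) (by omega)

theorem pt_rangeU {f : δ → U} (hf : PT f) : PT (fun d => rangeU (f d).val) :=
  (PT.rangeList hf.toUnits).congr fun d => by rw [List.length_replicate]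

theorem pt_goodU : PT (fun x : ((U × List Pt) × List (List Peb)) × List Peb =>
    good x.1.1.1.val x.1.1.2 x.1.2 x.2) := by
  have h1 : PT (fun x : ((((U × List Pt) × List (List Peb)) × List Peb) × U) × Pt =>
      x.1.1.1.2.any fun w' => agree x.1.2 x.2 x.1.1.2 w') := by
    have h0 : PT (fun z : (((((U × List Pt) × List (List Peb)) × List Peb) × U) × Pt) ×
        List Peb => agree z.1.1.2 z.1.2 z.1.1.1.2 z.2) :=
      pt_agree.comp ((PT.fst.comp_fst.comp_snd.pair PT.fst.comp_snd).pair
        (PT.fst.comp_fst.comp_fst.comp_snd.pair PT.snd))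
    exact PT.any h0 PT.id PT.fst.comp_fst.comp_fst.comp_snd
  have h2 : PT (fun x : (((U × List Pt) × List (List Peb)) × List Peb) × U =>
      x.1.1.1.2.all fun p => x.1.1.2.any fun w' => agree x.2 p x.1.2 w') :=
    PT.all h1 PT.id PT.fst.comp_fst.comp_fst.comp_snd
  exact PT.all h2 PT.id (pt_rangeU PT.fst.comp_fst.comp_fst)

theorem pt_stepU : PT (fun x : (U × List Pt) × List (List Peb) => step x.1.1.val x.1.2 x.2) :=
  PT.filter pt_goodU PT.id PT.snd

/-- initial positions, at most `N` of them -/
def startB (N K : ℕ) (P Q : List Pt) : List (List Peb) := (tuplesB N (pebs P Q) K).filter okk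

/-- the algorithm with at most `N` initial positions -/
def algB (N K : ℕ) (lP lQ : List U) : Bool :=
  lP.isEmpty || !((step K (pts lP))^[(startB N K (pts lP) (pts lQ)).length]
    (startB N K (pts lP) (pts lQ))).isEmpty

theorem length_pebs (P Q : List Pt) : (pebs P Q).length = P.length * Q.length := by
  induction P with
  | nil => simp [pebs]
  | cons a P ih =>
    have : pebs (a :: P) Q = (Q.map fun q => (a, q)) ++ pebs P Q := rfl
    rw [this, List.length_append, List.length_map, ih, List.length_cons]
    ring

theorem length_pts (l : List U) : (pts l).length = l.length := by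
  simp [pts, rangeU]

theorem algB_eq {N K : ℕ} {lP lQ : List U} (h : ∀ j ≤ K, (lP.length * lQ.length) ^ j ≤ N) :
    algB N K lP lQ = alg K lP lQ := by
  have h1 : startB N K (pts lP) (pts lQ) = start K (pts lP) (pts lQ) := by
    rw [startB, start, tuplesB_eq]
    intro j hj
    rw [length_pebs, length_pts, length_pts]
    exact h j hj
  rw [algB, alg, h1]

theorem pt_startB {N K : δ → U} {P Q : δ → List Pt} (hN : PT N) (hK : PT K) (hP : PT P)
    (hQ : PT Q) : PT (fun d => startB (N d).val (K d).val (P d) (Q d)) :=
  PT.filter (g := fun x : Bool × List Peb => okk x.2) (pt_okk.comp PT.snd) (PT.const true)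
    (pt_tuplesB hN (pt_pebs hP hQ) hK)

theorem pt_algB {N K : δ → U} {lP lQ : δ → List U} (hN : PT N) (hK : PT K) (hP : PT lP)
    (hQ : PT lQ) : PT (fun d => algB (N d).val (K d).val (lP d) (lQ d)) := by
  have hs : PT (fun d => startB (N d).val (K d).val (pts (lP d)) (pts (lQ d))) :=
    pt_startB hN hK (pt_pts.comp hP) (pt_pts.comp hQ)
  have hit := PT.iter (g := fun x : (U × List Pt) × List (List Peb) => step x.1.1.val x.1.2 x.2)
    (e := fun d => (K d, pts (lP d)))
    (s := fun d => startB (N d).val (K d).val (pts (lP d)) (pts (lQ d)))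
    (n := fun d => U.mk (startB (N d).val (K d).val (pts (lP d)) (pts (lQ d))).length)
    pt_stepU 0 (by
      intro e s
      have := length_enc_filter_le (fun w => good e.1.val e.2 s w) s
      simpa [step] using this) (hK.pair (pt_pts.comp hP)) hs (PT.length hs)
  exact PT.or (PT.isEmpty.comp hP) (PT.not (PT.isEmpty.comp hit))

end

end Pool.Agent.PPMX
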