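import Mathlib
import Pool.Agent.Lib_helper89.PPM.Width

/-!
# Hierarchical decompositions give tree decompositions
-/

set_option autoImplicit false

namespace Pool.Agent.PPMX

open Pool.Agent.PPM

/-- the graph of a parent function -/
def parGraph {V : Type} (f : V → V) : SimpleGraph V := SimpleGraph.fromRel fun i j => f i = j

theorem parGraph_adj {V : Type} {f : V → V} {i : V} (h : f i ≠ i) :
    (parGraph f).Adj i (f i) := by
  rw [parGraph, SimpleGraph.fromRel_adj]
  exact ⟨h.symm, Or.inl rfl⟩

/-- sets of nodes closed under taking parents, except for the top, are connected -/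
theorem parGraph_induce_connected {V : Type} {f : V → V} {rk : V → ℕ} {A : Set V} {t₀ : V}
    (h0 : t₀ ∈ A) (h : ∀ t ∈ A, t ≠ t₀ → rk (f t) < rk t ∧ f t ∈ A) :
    ((parGraph f).induce A).Connected := by
  have key : ∀ (n : ℕ) (t : A), rk t.1 ≤ n → ((parGraph f).induce A).Reachable ⟨t₀, h0⟩ t := by
    intro n
    induction n with
    | zero =>
      rintro ⟨t, ht⟩ hn
      by_cases htt : t = t₀
      · subst htt; exact SimpleGraph.Reachable.refl _
      · have := (h t ht htt).1
        simp only at hn
        omega
    | succ n ih =>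
      rintro ⟨t, ht⟩ hn
      by_cases htt : t = t₀
      · subst htt; exact SimpleGraph.Reachable.refl _
      · obtain ⟨h1, h2⟩ := h t ht htt
        simp only at hn
        have h3 := ih ⟨f t, h2⟩ (by simp only; omega)
        have hne : f t ≠ t := by
          intro hcon
          rw [hcon] at h1
          exact lt_irrefl _ h1
        have hadj : ((parGraph f).induce A).Adj ⟨t, ht⟩ ⟨f t, h2⟩ := parGraph_adj hne
        exact h3.trans hadj.symm.reachable
  have : Nonempty A := ⟨⟨t₀, h0⟩⟩
  exact ⟨fun a b => (key _ a le_rfl).symm.trans (key _ b le_rfl)⟩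

theorem parGraph_isTree {V : Type} [Fintype V] {f : V → V} {rk : V → ℕ} {r : V} (hr : f r = r)
    (h : ∀ t, t ≠ r → rk (f t) < rk t) : (parGraph f).IsTree := by
  classical
  have hconn : (parGraph f).Connected := by
    have h1 := parGraph_induce_connected (f := f) (rk := rk) (A := Set.univ) (t₀ := r)
      (Set.mem_univ _) (fun t _ ht => ⟨h t ht, Set.mem_univ _⟩)
    have : Nonempty V := ⟨r⟩
    refine ⟨fun a b => ?_⟩
    have h2 := h1.preconnected ⟨a, Set.mem_univ _⟩ ⟨b, Set.mem_univ _⟩
    exact h2.map (SimpleGraph.Embedding.induce (Set.univ : Set V)).toHom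
  rw [SimpleGraph.isTree_iff_connected_and_card]
  refine ⟨hconn, le_antisymm ?_ ?_⟩
  · have hsub : (parGraph f).edgeSet ⊆
        (((Finset.univ.erase r).image fun t => s(t, f t) : Finset (Sym2 V)) : Set (Sym2 V)) := by
      intro e he
      induction e using Sym2.ind with
      | _ a b =>
        rw [SimpleGraph.mem_edgeSet, parGraph, SimpleGraph.fromRel_adj] at he
        obtain ⟨hne, hab | hab⟩ := he
        · rw [Finset.mem_coe, Finset.mem_image]
          refine ⟨a, ?_, by rw [hab]⟩
          rw [Finset.mem_erase]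
          refine ⟨fun har => hne ?_, Finset.mem_univ _⟩
          rw [← hab, har, hr]
        · rw [Finset.mem_coe, Finset.mem_image]
          refine ⟨b, ?_, by rw [hab]; exact Sym2.eq_swap⟩
          rw [Finset.mem_erase]
          refine ⟨fun hbr => hne ?_, Finset.mem_univ _⟩
          rw [← hab, hbr, hr]
    have h1 : Nat.card (parGraph f).edgeSet ≤
        ((Finset.univ.erase r).image fun t => s(t, f t) : Finset (Sym2 V)).card := by
      have := Set.ncard_le_ncard hsub (Finset.finite_toSet _)
      rwa [Set.ncard_coe_finset] at this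
    have h2 := Finset.card_image_le (s := Finset.univ.erase r) (f := fun t => s(t, f t))
    rw [Finset.card_erase_of_mem (Finset.mem_univ _), Finset.card_univ] at h2
    have h3 : 0 < Fintype.card V := Fintype.card_pos_iff.2 ⟨r⟩
    rw [Nat.card_eq_fintype_card (α := V)]
    omega
  · exact hconn.card_vert_le_card_edgeSet_add_one

variable {α : Type} [DecidableEq α]

/-- tree decompositions with a root containing the boundary -/
def HasTD (X Y : α → ℤ) (S A : Finset α) (k : ℕ) : Prop :=
  ∃ (V : Type) (_ : Fintype V) (r : V) (f : V → V) (rk : V → ℕ) (B : V → Finset α),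
    f r = r ∧ (∀ t, t ≠ r → rk (f t) < rk t) ∧ (∀ t, B t ⊆ A) ∧ bd X Y S A ⊆ B r ∧
    (∀ v ∈ A, ∃ t, v ∈ B t) ∧
    (∀ u ∈ A, ∀ v ∈ A, Nbr X Y S u v → ∃ t, u ∈ B t ∧ v ∈ B t) ∧
    (∀ v ∈ A, ∃ t₀, v ∈ B t₀ ∧ ∀ t, v ∈ B t → t ≠ t₀ → t ≠ r ∧ v ∈ B (f t)) ∧
    ∀ t, (B t).card ≤ k

theorem Nbr.symm {X Y : α → ℤ} {S : Finset α} {p q : α} (h : Nbr X Y S p q) : Nbr X Y S q p := by
  rcases h with h | h | h | h
  · exact Or.inr (Or.inl h)
  · exact Or.inl h
  · exact Or.inr (Or.inr (Or.inr h))
  · exact Or.inr (Or.inr (Or.inl h))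

theorem bd_subset {X Y : α → ℤ} {S A : Finset α} : bd X Y S A ⊆ A := fun _ h => (mem_bd.1 h).1

theorem HasTD.of_dec {X Y : α → ℤ} {S : Finset α} {g : ℕ} (hg : 1 ≤ g) {A : Finset α}
    (h : Dec X Y S g A) : HasTD X Y S A (2 * g) := by
  classical
  induction h with
  | empty =>
    refine ⟨Unit, inferInstance, (), id, fun _ => 0, fun _ => ∅, rfl, ?_, ?_, ?_, ?_, ?_, ?_, ?_⟩
    · intro t ht; exact absurd rfl ht
    · intro t; exact Finset.empty_subset _
    · exact bd_subset
    · intro v hv; exact absurd hv (Finset.notMem_empty _)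
    · intro v hv; exact absurd hv (Finset.notMem_empty _)
    · intro v hv; exact absurd hv (Finset.notMem_empty _)
    · intro t; simp
  | @single p hp =>
    refine ⟨Unit, inferInstance, (), id, fun _ => 0, fun _ => {p}, rfl, ?_, ?_, ?_, ?_, ?_, ?_, ?_⟩
    · intro t ht; exact absurd rfl ht
    · intro t; exact Finset.Subset.refl _
    · exact bd_subset
    · intro v hv; exact ⟨(), hv⟩
    · intro u hu v hv _; exact ⟨(), hu, hv⟩
    · intro v hv; exact ⟨(), hv, fun t _ ht => absurd rfl ht⟩
    · intro t; simp only [Finset.card_singleton]; omega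
  | @union A₁ A₂ hA₁ hA₂ hdis hcard ih₁ ih₂ =>
    obtain ⟨V₁, _, r₁, f₁, k₁, B₁, a1, a2, a3, a4, a5, a6, a7, a8⟩ := ih₁
    obtain ⟨V₂, _, r₂, f₂, k₂, B₂, b1, b2, b3, b4, b5, b6, b7, b8⟩ := ih₂
    have n1 : ∀ {v}, v ∈ A₁ → ∀ t, v ∉ B₂ t := fun {v} h t h' =>
      Finset.disjoint_left.1 hdis h (b3 t h')
    have n2 : ∀ {v}, v ∈ A₂ → ∀ t, v ∉ B₁ t := fun {v} h t h' =>
      Finset.disjoint_left.1 hdis (a3 t h') h
    have m1 : ∀ {v}, v ∈ A₁ → v ∉ bd X Y S A₂ := fun {v} h h' =>
      Finset.disjoint_left.1 hdis h (bd_subset h')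
    have m2 : ∀ {v}, v ∈ A₂ → v ∉ bd X Y S A₁ := fun {v} h h' =>
      Finset.disjoint_left.1 hdis (bd_subset h') h
    let f : Option (V₁ ⊕ V₂) → Option (V₁ ⊕ V₂) := fun t => match t with
      | none => none
      | some (Sum.inl t) => if t = r₁ then none else some (Sum.inl (f₁ t))
      | some (Sum.inr t) => if t = r₂ then none else some (Sum.inr (f₂ t))
    let rk : Option (V₁ ⊕ V₂) → ℕ := fun t => match t with
      | none => 0
      | some (Sum.inl t) => k₁ t + 1
      | some (Sum.inr t) => k₂ t + 1
    let B : Option (V₁ ⊕ V₂) → Finset α := fun t => match t with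
      | none => bd X Y S A₁ ∪ bd X Y S A₂
      | some (Sum.inl t) => B₁ t
      | some (Sum.inr t) => B₂ t
    refine ⟨Option (V₁ ⊕ V₂), inferInstance, none, f, rk, B, rfl, ?_, ?_, ?_, ?_, ?_, ?_, ?_⟩
    · intro t ht
      rcases t with _ | t | t
      · exact absurd rfl ht
      · by_cases h : t = r₁
        · simp only [f, rk, if_pos h]; omega
        · simp only [f, rk, if_neg h]
          have := a2 t h
          omega
      · by_cases h : t = r₂
        · simp only [f, rk, if_pos h]; omega
        · simp only [f, rk, if_neg h]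
          have := b2 t h
          omega
    · intro t
      rcases t with _ | t | t
      · exact Finset.union_subset_union bd_subset bd_subset
      · exact (a3 t).trans Finset.subset_union_left
      · exact (b3 t).trans Finset.subset_union_right
    · intro p hp
      have hp' := (mem_bd.1 hp).1
      rw [Finset.mem_union] at hp'
      rcases hp' with h | h
      · exact Finset.mem_union_left _ (bd_union_left hp h)
      · exact Finset.mem_union_right _ (bd_union_right hp h)
    · intro v hv
      rcases Finset.mem_union.1 hv with h | h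
      · obtain ⟨t, ht⟩ := a5 v h
        exact ⟨some (Sum.inl t), ht⟩
      · obtain ⟨t, ht⟩ := b5 v h
        exact ⟨some (Sum.inr t), ht⟩
    · intro u hu v hv huv
      rcases Finset.mem_union.1 hu with h | h <;> rcases Finset.mem_union.1 hv with h' | h'
      · obtain ⟨t, ht⟩ := a6 u h v h' huv
        exact ⟨some (Sum.inl t), ht⟩
      · refine ⟨none, Finset.mem_union_left _ ?_, Finset.mem_union_right _ ?_⟩
        · exact mem_bd.2 ⟨h, v, hA₂.subset h', fun hc => Finset.disjoint_left.1 hdis hc h', huv⟩
        · exact mem_bd.2 ⟨h', u, hA₁.subset h, fun hc => Finset.disjoint_left.1 hdis h hc,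
            Nbr.symm huv⟩
      · refine ⟨none, Finset.mem_union_right _ ?_, Finset.mem_union_left _ ?_⟩
        · exact mem_bd.2 ⟨h, v, hA₁.subset h', fun hc => Finset.disjoint_left.1 hdis h' hc, huv⟩
        · exact mem_bd.2 ⟨h', u, hA₂.subset h, fun hc => Finset.disjoint_left.1 hdis hc h,
            Nbr.symm huv⟩
      · obtain ⟨t, ht⟩ := b6 u h v h' huv
        exact ⟨some (Sum.inr t), ht⟩
    · intro v hv
      rcases Finset.mem_union.1 hv with h | h
      · obtain ⟨t₀, h1, h2⟩ := a7 v h
        by_cases hb : v ∈ bd X Y S A₁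
        · have ht₀ : t₀ = r₁ := by
            by_contra hne
            exact (h2 r₁ (a4 hb) (fun hc => hne hc.symm)).1 rfl
          refine ⟨none, Finset.mem_union_left _ hb, fun t ht _ => ?_⟩
          rcases t with _ | t | t
          · exact absurd rfl ‹_›
          · refine ⟨by simp, ?_⟩
            by_cases htr : t = r₁
            · simp only [f, if_pos htr]
              exact Finset.mem_union_left _ hb
            · simp only [f, if_neg htr]
              exact (h2 t ht (by rw [ht₀]; exact htr)).2
          · exact absurd ht (n1 h t)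
        · refine ⟨some (Sum.inl t₀), h1, fun t ht hne => ?_⟩
          rcases t with _ | t | t
          · exfalso
            rcases Finset.mem_union.1 ht with h3 | h3
            · exact hb h3
            · exact m1 h h3
          · have hne' : t ≠ t₀ := fun hc => hne (by rw [hc])
            obtain ⟨h3, h4⟩ := h2 t ht hne'
            refine ⟨by simp, ?_⟩
            simp only [f, if_neg h3]
            exact h4
          · exact absurd ht (n1 h t)
      · obtain ⟨t₀, h1, h2⟩ := b7 v h
        by_cases hb : v ∈ bd X Y S A₂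
        · have ht₀ : t₀ = r₂ := by
            by_contra hne
            exact (h2 r₂ (b4 hb) (fun hc => hne hc.symm)).1 rfl
          refine ⟨none, Finset.mem_union_right _ hb, fun t ht _ => ?_⟩
          rcases t with _ | t | t
          · exact absurd rfl ‹_›
          · exact absurd ht (n2 h t)
          · refine ⟨by simp, ?_⟩
            by_cases htr : t = r₂
            · simp only [f, if_pos htr]
              exact Finset.mem_union_right _ hb
            · simp only [f, if_neg htr]
              exact (h2 t ht (by rw [ht₀]; exact htr)).2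
        · refine ⟨some (Sum.inr t₀), h1, fun t ht hne => ?_⟩
          rcases t with _ | t | t
          · exfalso
            rcases Finset.mem_union.1 ht with h3 | h3
            · exact m2 h h3
            · exact hb h3
          · exact absurd ht (n2 h t)
          · have hne' : t ≠ t₀ := fun hc => hne (by rw [hc])
            obtain ⟨h3, h4⟩ := h2 t ht hne'
            refine ⟨by simp, ?_⟩
            simp only [f, if_neg h3]
            exact h4
    · intro t
      rcases t with _ | t | t
      · refine (Finset.card_union_le _ _).trans ?_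
        have := hA₁.card_bd hg
        have := hA₂.card_bd hg
        omega
      · exact a8 t
      · exact b8 t

theorem nbr_of_adj {σ : Permutation} {u v : Fin σ.1} (h : (permGraph σ).Adj u v) :
    Nbr (fun i : Fin σ.1 => (i.val : ℤ)) (fun i => ((σ.2 i).val : ℤ)) Finset.univ u v := by
  rw [permGraph, SimpleGraph.fromRel_adj] at h
  obtain ⟨_, (h | h) | (h | h)⟩ := h
  · left
    exact ⟨Finset.mem_univ _, Finset.mem_univ _, by simp only; omega, fun r _ => by
      simp only; omega⟩
  · right; right; left
    exact ⟨Finset.mem_univ _, Finset.mem_univ _, by simp only; omega, fun r _ => by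
      simp only; omega⟩
  · right; left
    exact ⟨Finset.mem_univ _, Finset.mem_univ _, by simp only; omega, fun r _ => by
      simp only; omega⟩
  · right; right; right
    exact ⟨Finset.mem_univ _, Finset.mem_univ _, by simp only; omega, fun r _ => by
      simp only; omega⟩

/-- narrow permutations have small treewidth -/
theorem treewidthLE_of_wid {g : ℕ} (hg : 1 ≤ g) {σ : Permutation} (h : Wid g σ) {k : ℕ}
    (hk : 2 * g ≤ k + 1) : TreewidthLE (permGraph σ) k := by
  classical
  obtain ⟨V, _, r, f, rk, B, a1, a2, a3, a4, a5, a6, a7, a8⟩ := HasTD.of_dec hg h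
  have e : V ≃ Fin (Fintype.card V) := Fintype.equivFin V
  refine ⟨Fintype.card V, parGraph (fun i => e (f (e.symm i))), fun i => B (e.symm i), ?_, ?_, ?_,
    ?_, ?_⟩
  · refine parGraph_isTree (rk := fun i => rk (e.symm i)) (r := e r) ?_ ?_
    · rw [Equiv.symm_apply_apply, a1]
    · intro t ht
      simp only [Equiv.symm_apply_apply]
      exact a2 _ fun hc => ht (by rw [← hc, Equiv.apply_symm_apply])
  · intro v
    obtain ⟨t, ht⟩ := a5 v (Finset.mem_univ _)
    exact ⟨e t, by simpa using ht⟩
  · intro u v huv
    obtain ⟨t, ht⟩ := a6 u (Finset.mem_univ _) v (Finset.mem_univ _) (nbr_of_adj huv)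
    exact ⟨e t, by simpa using ht⟩
  · intro v
    obtain ⟨t₀, h1, h2⟩ := a7 v (Finset.mem_univ _)
    refine parGraph_induce_connected (rk := fun i => rk (e.symm i)) (t₀ := e t₀) ?_ ?_
    · show v ∈ B (e.symm (e t₀))
      rw [Equiv.symm_apply_apply]
      exact h1
    · intro t ht hne
      obtain ⟨h3, h4⟩ := h2 (e.symm t) ht (fun hc => hne (by rw [← hc, Equiv.apply_symm_apply]))
      refine ⟨?_, ?_⟩
      · simp only [Equiv.symm_apply_apply]
        exact a2 _ h3
      · show v ∈ B (e.symm (e (f (e.symm t))))
        rw [Equiv.symm_apply_apply]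
        exact h4
  · intro t
    exact (a8 _).trans hk

end Pool.Agent.PPMX
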