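import Mathlib
import Pool.Agent.Lib_helper48.PPMX.TreeDec

/-!
# All patterns of a superposition of staircases with few scales are narrow
-/

set_option autoImplicit false

namespace Pool.Agent.PPMX

open Pool.Agent.PPM

section sweep

variable {k R : ℕ}

theorem lo_nonneg (hR : 0 < R) (p : ℕ × ℕ) : 0 ≤ lo k R p := by
  have := hh_pos (k := k) hR p.1
  unfold lo
  positivity

/-- at most one arc of each scale crosses a point -/
theorem card_Cr_zero (hR : 0 < R) {S : Finset (ℕ × ℕ)} (hS : ∀ p ∈ S, p.1 < k) (c : ℤ) :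
    (Cr k R S 0 c).card ≤ k := by
  classical
  have h1 : (Cr k R S 0 c).card ≤ (Finset.range k).card := by
    refine Finset.card_le_card_of_injOn Prod.fst ?_ ?_
    · intro p hp
      have hp' := (Finset.mem_filter.1 (Finset.mem_coe.1 hp)).1
      exact Finset.mem_coe.2 (Finset.mem_range.2 (hS p hp'))
    · intro p hp q hq hpq
      have hp' := (Finset.mem_filter.1 (Finset.mem_coe.1 hp)).2
      have hq' := (Finset.mem_filter.1 (Finset.mem_coe.1 hq)).2
      have e0 : ∀ p : ℕ × ℕ, 0 ≤ lo k R p := lo_nonneg hR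
      have hp1 : lo k R p < c ∧ c ≤ hi k R p := by
        have := e0 p
        omega
      have hq1 : lo k R q < c ∧ c ≤ hi k R q := by
        have := e0 q
        omega
      have hpq' : p.1 = q.1 := hpq
      unfold lo hi at hp1 hq1
      rw [hpq'] at hp1
      have hpos := hh_pos (k := k) hR q.1
      have e1 : (2 * (p.2 : ℤ) + 1) < 2 * q.2 + 3 := by
        by_contra hcon
        push Not at hcon
        have := mul_le_mul_of_nonneg_right hcon hpos.le
        omega
      have e2 : (2 * (q.2 : ℤ) + 1) < 2 * p.2 + 3 := by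
        by_contra hcon
        push Not at hcon
        have := mul_le_mul_of_nonneg_right hcon hpos.le
        omega
      exact Prod.ext hpq' (by omega)
  rwa [Finset.card_range] at h1

/-- sets of arcs with `k` scales have decompositions with at most `4 k + 4` boundary points -/
theorem dec_sweep (hR : 0 < R) {S : Finset (ℕ × ℕ)} (hS : ∀ p ∈ S, p.1 < k) :
    Dec (cx k R) (cy k R) S (4 * k + 4) S := by
  classical
  have hstep : ∀ n : ℕ, Dec (cx k R) (cy k R) S (4 * k + 4) (Ins k R S 0 n) := by
    intro n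
    induction n with
    | zero =>
      have : Ins k R S 0 ((0 : ℕ) : ℤ) = ∅ := by
        rw [Finset.eq_empty_iff_forall_notMem]
        intro p hp
        rw [mem_Ins] at hp
        have hl := lo_lt_hi (k := k) hR p
        have := hp.2.2
        push_cast at this
        omega
      rw [this]
      exact Dec.empty
    | succ n ih =>
      have hb : (bd (cx k R) (cy k R) S (Ins k R S 0 ((n + 1 : ℕ) : ℤ))).card ≤ 4 * k + 4 := by
        have h1 := card_bd_Ins hR hS 0 ((n + 1 : ℕ) : ℤ)
        have h2 := card_Cr_zero hR hS ((n + 1 : ℕ) : ℤ)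
        omega
      by_cases hex : ∃ p ∈ S, hi k R p = n
      · obtain ⟨p, hp, hpn⟩ := hex
        have hunion : Ins k R S 0 ((n + 1 : ℕ) : ℤ) = Ins k R S 0 (n : ℤ) ∪ {p} := by
          ext q
          rw [Finset.mem_union, Finset.mem_singleton, mem_Ins, mem_Ins]
          push_cast
          constructor
          · rintro ⟨h1, h2, h3⟩
            by_cases h4 : hi k R q < n
            · exact Or.inl ⟨h1, h2, h4⟩
            · right
              exact hi_inj hR (hS q h1) (hS p hp) (by omega)
          · rintro (⟨h1, h2, h3⟩ | rfl)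
            · exact ⟨h1, h2, by omega⟩
            · exact ⟨hp, lo_nonneg hR _, by omega⟩
        rw [hunion] at hb ⊢
        refine Dec.union ih (Dec.single hp) ?_ hb
        rw [Finset.disjoint_singleton_right, mem_Ins]
        rintro ⟨_, _, h3⟩
        omega
      · have heq : Ins k R S 0 ((n + 1 : ℕ) : ℤ) = Ins k R S 0 (n : ℤ) := by
          ext q
          rw [mem_Ins, mem_Ins]
          push_cast
          constructor
          · rintro ⟨h1, h2, h3⟩
            refine ⟨h1, h2, ?_⟩
            by_contra h4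
            exact hex ⟨q, h1, by omega⟩
          · rintro ⟨h1, h2, h3⟩
            exact ⟨h1, h2, by omega⟩
        rw [heq]
        exact ih
  obtain ⟨M, hM⟩ : ∃ M : ℕ, ∀ p ∈ S, hi k R p < M := by
    obtain ⟨M, hM⟩ := (S.image (hi k R)).bddAbove
    refine ⟨(M + 1).toNat, fun p hp => ?_⟩
    have h1 : hi k R p ≤ M := hM (by simpa using ⟨p.1, p.2, hp, rfl⟩)
    have h2 := lo_nonneg (k := k) hR p
    have h3 := lo_lt_hi (k := k) hR p
    rw [Int.toNat_of_nonneg (by omega)]
    omega
  have hall : Ins k R S 0 (M : ℤ) = S := by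
    ext p
    rw [mem_Ins]
    exact ⟨fun h => h.1, fun h => ⟨h, lo_nonneg hR p, hM p h⟩⟩
  have := hstep M
  rwa [hall] at this

end sweep

/-- All patterns of the staircase permutations with `K` scales are narrow. -/
theorem wid_all {K R M : ℕ} (hR : 0 < R) {π : Permutation} (e : Fin π.1 ≃ arcs K M)
    (hX : ∀ i j, i < j ↔ cx K R (e i) < cx K R (e j))
    (hY : ∀ i j, π.2 i < π.2 j ↔ cy K R (e i) < cy K R (e j)) {σ : Permutation}
    (hσ : Contains π σ) : Wid (4 * K + 4) σ := by
  obtain ⟨f, hf, hf2⟩ := hσ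
  let φ : Fin σ.1 → ℕ × ℕ := fun i => (e (f i)).1
  have hφ : Function.Injective φ :=
    Subtype.val_injective.comp (e.injective.comp hf.injective)
  have h := dec_sweep (k := K) (R := R) hR (S := Finset.univ.image φ) (by
    intro p hp
    rw [Finset.mem_image] at hp
    obtain ⟨i, _, rfl⟩ := hp
    exact (mem_arcs.mp (e (f i)).2).1)
  have h2 := Dec.comap (X' := fun i : Fin σ.1 => (i.val : ℤ))
    (Y' := fun i : Fin σ.1 => ((σ.2 i).val : ℤ)) (S' := Finset.univ) hφ rfl (by
      intro a b
      show _ ↔ cx K R (e (f a)) < cx K R (e (f b))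
      rw [← hX, hf.lt_iff_lt, Fin.lt_def]
      exact Int.ofNat_lt) (by
      intro a b
      show _ ↔ cy K R (e (f a)) < cy K R (e (f b))
      rw [← hY, ← hf2, Fin.lt_def]
      exact Int.ofNat_lt) h
  have h3 : (Finset.univ.filter fun b => φ b ∈ Finset.univ.image φ) = Finset.univ := by
    ext c
    simp
  rw [h3] at h2
  exact h2

/-- permutations of large treewidth, whose short patterns have treewidth at most `33` and all of
whose patterns have treewidth bounded in terms of `K` -/
theorem exists_stairs' (K R : ℕ) : ∃ π : Permutation, ¬ TreewidthLE (permGraph π) K ∧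
    ∀ σ, Contains π σ → TreewidthLE (permGraph σ) (8 * K + 23) ∧
      (σ.1 ≤ R → TreewidthLE (permGraph σ) 33) := by
  obtain ⟨π, e, hX, hY, htw⟩ := exists_staircase_aux (K + 2) (R + 1)
    (2 * ((K + 2) * (2 * (R + 1)) ^ (K + 2)) + 1) (by omega) (by omega) rfl
  refine ⟨π, htw K rfl, fun σ hσ => ⟨?_, fun hlen => ?_⟩⟩
  · exact treewidthLE_of_wid (g := 4 * (K + 2) + 4) (by omega)
      (wid_all (by omega) e hX hY hσ) (by omega)
  · exact treewidthLE_of_wid (g := 17) (by omega)
      (wid_of_contains (by omega) e hX hY hσ (by omega)) (by omega)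

theorem Contains.refl (π : Permutation) : Contains π π := ⟨id, strictMono_id, fun _ _ => Iff.rfl⟩

theorem Contains.trans {π σ τ : Permutation} (h : Contains π σ) (h' : Contains σ τ) :
    Contains π τ := by
  obtain ⟨f, hf, hf2⟩ := h
  obtain ⟨g, hg, hg2⟩ := h'
  exact ⟨f ∘ g, hf.comp hg, fun i j => (hg2 i j).trans (hf2 _ _)⟩

/-- the permutations `σ` such that `tw(G_π) ≤ g(|π|)` for each pattern `π` of `σ` -/
def SlowClass (g : ℕ → ℕ) : Set Permutation :=
  {σ | ∀ π, Contains σ π → TreewidthLE (permGraph π) (g π.1)}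

theorem isClass_slowClass (g : ℕ → ℕ) : IsClass (SlowClass g) :=
  fun _ hτ _ hπ σ hσ => hτ σ (Contains.trans hπ hσ)

theorem TreewidthLE.mono {V : Type} {G : SimpleGraph V} {k l : ℕ} (h : TreewidthLE G k)
    (hkl : k ≤ l) : TreewidthLE G l := by
  obtain ⟨m, T, B, h1, h2, h3, h4, h5⟩ := h
  exact ⟨m, T, B, h1, h2, h3, h4, fun t => (h5 t).trans (by omega)⟩

theorem unbounded_slowClass {g : ℕ → ℕ} (hg : Monotone g) (hu : ∀ k, ∃ n, k ≤ g n)
    (h0 : 33 ≤ g 0) : UnboundedTreewidth (SlowClass g) := by
  intro K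
  obtain ⟨R, hR⟩ := hu (8 * K + 23)
  obtain ⟨π, h1, h2⟩ := exists_stairs' K R
  refine ⟨π, fun σ hσ => ?_, h1⟩
  obtain ⟨h3, h4⟩ := h2 σ hσ
  rcases le_total σ.1 R with h | h
  · exact TreewidthLE.mono (h4 h) (h0.trans (hg (Nat.zero_le _)))
  · exact TreewidthLE.mono h3 (hR.trans (hg h))

end Pool.Agent.PPMX
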