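import Mathlib
import Pool.Agent.Lib_helper48.PPMX.AlgU
import Pool.Agent.Lib_helper48.PPMX.AlgTree
import Pool.Agent.Lib_helper48.PPMX.Sweep
import Pool.Agent.Lib_helper88.PolyTime.Simulate

/-!
# Explicit classes of unbounded treewidth and the running time of pattern matching for them
-/

set_option autoImplicit false

namespace Pool.Agent.PPMX

open Pool.Agent.PPM Pool.Agent.PT

/-- Some Turing machine (Mathlib's machines with several stacks, input and output in the alphabet
`Bool`) outputs `f a` within `T a` steps on every input `a ∈ D`. -/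
def ComputableInTimeOn {α β : Type} [N487b59b3 α] [N487b59b3 β] (D : Set α) (f : α → β)
    (T : α → ℕ) : Prop :=
  ∃ (tm : Turing.FinTM2) (ei : tm.Γ tm.k₀ ≃ Bool) (eo : tm.Γ tm.k₁ ≃ Bool), ∀ a ∈ D,
    Nonempty (Turing.TM2OutputsInTime tm ((N487b59b3.bitEncode a).map ei.symm)
      (some ((N487b59b3.bitEncode (f a)).map eo.symm)) (T a))

theorem computable_of_runs {α β : Type} [N487b59b3 α] [N487b59b3 β] {D : Set α} {f : α → β}
    {T : α → ℕ} {c : Cmd}
    (h : ∀ a ∈ D, ∃ t, Runs c (single 0 (enc a)) (single 0 (enc (f a))) t ∧ t + 1 ≤ T a) :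
    ComputableInTimeOn D f T := by
  obtain ⟨N, hN⟩ := c.exists_regs
  refine ⟨machine c N, Equiv.refl Bool, Equiv.refl Bool, fun a ha => ?_⟩
  obtain ⟨t₀, ⟨t, ht, he⟩, hT⟩ := h a ha
  obtain ⟨h1⟩ := machine_outputs hN he
  have h2 : Turing.TM2OutputsInTime (machine c N) (enc a) (some (enc (f a))) (T a) :=
    ⟨h1.toEvalsTo, le_trans h1.steps_le_m (by omega)⟩
  have e1 : List.map (Equiv.refl Bool).symm (enc a) = enc a := by
    simp [Equiv.refl]
  have e2 : List.map (Equiv.refl Bool).symm (enc (f a)) = enc (f a) := by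
    simp [Equiv.refl]
  refine ⟨cast ?_ h2⟩
  exact congrArg₂ (fun x y => Turing.TM2OutputsInTime (machine c N) x (some y) (T a)) e1.symm
    e2.symm

theorem poly_le (p : Polynomial ℕ) : ∃ A d : ℕ, ∀ y, p.eval y ≤ A * (y + 1) ^ d := by
  refine ⟨p.eval 1, p.natDegree, fun y => ?_⟩
  rw [Polynomial.eval_eq_sum_range, Polynomial.eval_eq_sum_range, Finset.sum_mul]
  apply Finset.sum_le_sum
  intro i hi
  rw [Finset.mem_range] at hi
  rw [one_pow, mul_one]
  refine Nat.mul_le_mul_left _ ?_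
  exact (Nat.pow_le_pow_left (Nat.le_succ y) i).trans
    (Nat.pow_le_pow_right (Nat.succ_pos y) (by omega))

/-- the value of a polynomial at a power of `b ≥ 2` is at most a power of `b` -/
theorem poly_pow (p : Polynomial ℕ) : ∃ e : ℕ, ∀ b y k : ℕ, 2 ≤ b → 1 ≤ k → y ≤ b ^ k →
    p.eval y + 1 ≤ b ^ (e * k) := by
  obtain ⟨A, d, h⟩ := poly_le p
  refine ⟨A + 2 * d + 1, fun b y k hb hk hy => ?_⟩
  have hb0 : 0 < b := by omega
  have h1 : y + 1 ≤ b ^ (2 * k) := by
    have h2 : 1 ≤ b ^ k := Nat.one_le_pow _ _ hb0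
    have h3 : b ^ (2 * k) = b ^ k * b ^ k := by rw [two_mul, pow_add]
    have h4 : 2 ≤ b ^ k := le_trans hb (by
      calc b = b ^ 1 := (pow_one b).symm
        _ ≤ b ^ k := Nat.pow_le_pow_right hb0 hk)
    rw [h3]
    nlinarith
  have hA : A ≤ b ^ A := (Nat.lt_two_pow_self).le.trans (Nat.pow_le_pow_left hb A)
  have h5 : p.eval y ≤ b ^ A * b ^ (2 * k * d) := by
    refine (h y).trans (Nat.mul_le_mul hA ?_)
    rw [pow_mul]
    exact Nat.pow_le_pow_left h1 d
  rw [← pow_add] at h5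
  have h6 : A + 2 * k * d ≤ (A + 2 * d) * k := by nlinarith
  have h7 : p.eval y ≤ b ^ ((A + 2 * d) * k) := h5.trans (Nat.pow_le_pow_right hb0 h6)
  have h8 : 1 ≤ b ^ ((A + 2 * d) * k) := Nat.one_le_pow _ _ hb0
  calc p.eval y + 1 ≤ b ^ ((A + 2 * d) * k) * 2 := by omega
    _ ≤ b ^ ((A + 2 * d) * k) * b ^ k := Nat.mul_le_mul_left _ (hb.trans (by
        calc b = b ^ 1 := (pow_one b).symm
          _ ≤ b ^ k := Nat.pow_le_pow_right hb0 hk))
    _ = b ^ ((A + 2 * d + 1) * k) := by rw [← pow_add]; congr 1; ring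

theorem enc_perm (π : Permutation) : enc π = enc (values π) := rfl

theorem length_enc_perm (π : Permutation) : (enc π).length ≤ π.1 * (2 * π.1 + 1) := by
  rw [enc_perm]
  have h := enc_length_le (l := values π) (m := π.1) (by
    intro a ha
    rw [values, List.mem_ofFn] at ha
    obtain ⟨i, rfl⟩ := ha
    rw [length_enc_U]
    exact (π.2 i).2.le)
  rwa [values, List.length_ofFn] at h

theorem length_le_enc_perm (π : Permutation) : π.1 ≤ (enc π).length := by
  have h := length_le_enc (values π)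
  rwa [values, List.length_ofFn] at h

open Classical in
/-- A program that decides pattern matching for the patterns of treewidth at most `g (|π|)`. -/
theorem exists_program {g : ℕ → ℕ} (h0 : ∀ n, 1 ≤ g n) (hg : PT (fun u : U => U.mk (g u.val))) :
    ∃ (c : Cmd) (e : ℕ), ∀ x : Permutation × Permutation,
      TreewidthLE (permGraph x.1) (g x.1.1) → ∃ t,
        Runs c (single 0 (enc x)) (single 0 (enc (decide (Contains x.2 x.1)))) t ∧
          t + 1 ≤ (x.1.1 + x.2.1 + 2) ^ (e * g x.1.1) := by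
  have hv1 : PT (fun x : Permutation × Permutation => values x.1) :=
    (PT.of_enc_eq fun _ => rfl : PT (fun π : Permutation => values π)).comp PT.fst
  have hv2 : PT (fun x : Permutation × Permutation => values x.2) :=
    (PT.of_enc_eq fun _ => rfl : PT (fun π : Permutation => values π)).comp PT.snd
  have hl1 : PT (fun x : Permutation × Permutation => U.mk x.1.1) :=
    (PT.length hv1).congr fun x => by rw [values, List.length_ofFn]
  have hl2 : PT (fun x : Permutation × Permutation => U.mk x.2.1) :=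
    (PT.length hv2).congr fun x => by rw [values, List.length_ofFn]
  have hM : PT (fun x : Permutation × Permutation => U.mk (x.1.1 * x.2.1 + 1)) :=
    (PT.umul hl1 hl2).usucc
  have hK : PT (fun x : Permutation × Permutation => U.mk (g x.1.1 + g x.1.1 + 2)) := by
    have h1 : PT (fun x : Permutation × Permutation => U.mk (g x.1.1)) := hg.comp hl1
    exact (PT.uadd h1 h1).usucc.usucc
  have hpow := RT.pow hM hK (fun x => Nat.le_add_left _ _)
  have hK' : PT (fun y : U × (Permutation × Permutation) =>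
      U.mk (g y.2.1.1 + g y.2.1.1 + 2)) := hK.comp PT.snd
  have halg : PT (fun y : U × (Permutation × Permutation) =>
      algB y.1.val (g y.2.1.1 + g y.2.1.1 + 2) (values y.2.1) (values y.2.2)) :=
    pt_algB (N := fun y : U × (Permutation × Permutation) => y.1)
      (K := fun y => U.mk (g y.2.1.1 + g y.2.1.1 + 2)) PT.fst hK' (hv1.comp PT.snd)
      (hv2.comp PT.snd)
  obtain ⟨c, p, hc⟩ := RT.comp_PT halg hpow
  obtain ⟨e, he⟩ := poly_pow p
  refine ⟨c, e * 11, fun x hx =>
    ⟨p.eval ((enc x).length + (x.1.1 * x.2.1 + 1) ^ (g x.1.1 + g x.1.1 + 2)), ?_, ?_⟩⟩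
  · have h1 := hc x
    beta_reduce at h1
    simp only at h1
    have h2 : algB ((x.1.1 * x.2.1 + 1) ^ (g x.1.1 + g x.1.1 + 2)) (g x.1.1 + g x.1.1 + 2)
        (values x.1) (values x.2) = decide (Contains x.2 x.1) := by
      rw [algB_eq]
      · have h3 := alg_iff (K := g x.1.1 + g x.1.1 + 2) (k := g x.1.1) (by omega) (τ := x.2) hx
        by_cases h4 : Contains x.2 x.1
        · rw [h3.2 h4, decide_eq_true h4]
        · rw [decide_eq_false h4, ← Bool.not_eq_true]
          exact fun h5 => h4 (h3.1 h5)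
      · intro j hj
        rw [values, values, List.length_ofFn, List.length_ofFn]
        exact (Nat.pow_le_pow_left (Nat.le_succ _) j).trans
          (Nat.pow_le_pow_right (Nat.succ_pos _) hj)
    rw [h2] at h1
    exact h1
  · obtain ⟨b, hb⟩ : ∃ b, b = x.1.1 + x.2.1 + 2 := ⟨_, rfl⟩
    obtain ⟨G, hG⟩ : ∃ G, G = g x.1.1 := ⟨_, rfl⟩
    have hG1 : 1 ≤ G := hG ▸ h0 _
    have hb2 : 2 ≤ b := by omega
    have hb0 : 0 < b := by omega
    rw [← hb, ← hG]
    have h1 : (enc x).length ≤ b ^ 6 := by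
      have e1 : (enc x).length = 2 * (enc x.1).length + 1 + (enc x.2).length :=
        length_enc_pair x.1 x.2
      have e2 := length_enc_perm x.1
      have e3 := length_enc_perm x.2
      have e4 : x.1.1 * (2 * x.1.1 + 1) ≤ 2 * b ^ 2 := by
        have : x.1.1 ≤ b := by omega
        nlinarith
      have e5 : x.2.1 * (2 * x.2.1 + 1) ≤ 2 * b ^ 2 := by
        have : x.2.1 ≤ b := by omega
        nlinarith
      have e6 : 1 ≤ b ^ 2 := Nat.one_le_pow _ _ hb0
      have e7 : 16 ≤ b ^ 4 := by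
        calc 16 = 2 ^ 4 := by norm_num
          _ ≤ b ^ 4 := Nat.pow_le_pow_left hb2 4
      calc (enc x).length ≤ 16 * b ^ 2 := by omega
        _ ≤ b ^ 4 * b ^ 2 := Nat.mul_le_mul_right _ e7
        _ = b ^ 6 := by rw [← pow_add]
    have h2 : (x.1.1 * x.2.1 + 1) ^ (G + G + 2) ≤ b ^ (8 * G) := by
      have e1 : x.1.1 * x.2.1 + 1 ≤ b ^ 2 := by
        rw [hb]
        nlinarith
      calc (x.1.1 * x.2.1 + 1) ^ (G + G + 2) ≤ (b ^ 2) ^ (G + G + 2) := Nat.pow_le_pow_left e1 _
        _ = b ^ (2 * (G + G + 2)) := by rw [← pow_mul]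
        _ ≤ b ^ (8 * G) := Nat.pow_le_pow_right hb0 (by omega)
    have h3 : (enc x).length + (x.1.1 * x.2.1 + 1) ^ (G + G + 2) ≤ b ^ (9 * G) := by
      have e1 : b ^ 6 ≤ b ^ (8 * G) := Nat.pow_le_pow_right hb0 (by omega)
      calc _ ≤ b ^ (8 * G) + b ^ (8 * G) := by omega
        _ = b ^ (8 * G) * 2 := by ring
        _ ≤ b ^ (8 * G) * b ^ G := Nat.mul_le_mul_left _ (hb2.trans (by
            calc b = b ^ 1 := (pow_one b).symm
              _ ≤ b ^ G := Nat.pow_le_pow_right hb0 hG1))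
        _ = b ^ (9 * G) := by rw [← pow_add]; congr 1; ring
    refine (he b _ (9 * G) hb2 (by omega) h3).trans (Nat.pow_le_pow_right hb0 ?_)
    nlinarith [Nat.zero_le (e * G)]

/-- one step of the computation of the logarithm -/
def logStep (s : U × U) : U × U :=
  if decide (s.1.val ≤ 1) then s else (U.mk (s.1.val / 2), U.mk (s.2.val + 1))

theorem logStep_iter : ∀ (n m c : ℕ), Nat.log 2 m ≤ n →
    (logStep^[n] (U.mk m, U.mk c)).2 = U.mk (c + Nat.log 2 m) := by
  intro n
  induction n with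
  | zero =>
    intro m c h
    have : Nat.log 2 m = 0 := by omega
    rw [this]
    rfl
  | succ n ih =>
    intro m c h
    rw [Function.iterate_succ_apply]
    by_cases hm : m ≤ 1
    · have h1 : logStep (U.mk m, U.mk c) = (U.mk m, U.mk c) := by
        rw [logStep, if_pos (by simpa using hm)]
      rw [h1]
      refine ih m c ?_
      rw [Nat.log_of_lt (by omega)]
      exact Nat.zero_le _
    · have h1 : logStep (U.mk m, U.mk c) = (U.mk (m / 2), U.mk (c + 1)) := by
        rw [logStep, if_neg (by simpa using hm)]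
      have h2 : Nat.log 2 m = Nat.log 2 (m / 2) + 1 :=
        Nat.log_of_one_lt_of_le (by norm_num) (by omega)
      rw [h1, ih (m / 2) (c + 1) (by omega), h2]
      congr 1
      omega

theorem pt_log : PT (fun u : U => U.mk (33 + Nat.log 2 u.val)) := by
  have hs : PT (fun p : Bool × (U × U) => logStep p.2) :=
    PT.ite (PT.ule PT.snd.comp_fst (PT.const (U.mk 1))) PT.snd
      ((PT.uhalf PT.snd.comp_fst).pair (PT.usucc PT.snd.comp_snd))
  have h1 := PT.iter (g := fun p : Bool × (U × U) => logStep p.2) (e := fun _ : U => true)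
    (s := fun u => (u, U.mk 33)) (n := fun u => u) hs 1 (by
      intro e s
      beta_reduce
      rw [logStep]
      split_ifs with h
      · exact Nat.le_add_right _ _
      · obtain ⟨a, b⟩ := s
        rw [length_enc_pair, length_enc_pair, length_enc_U, length_enc_U, length_enc_U,
          length_enc_U]
        simp only [Polynomial.eval_one]
        have := Nat.div_le_self a.val 2
        omega) (PT.const true) (PT.id.pair (PT.const _)) PT.id
  refine h1.comp_snd.congr fun u => ?_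
  obtain ⟨m⟩ := u
  exact logStep_iter m m 33 (Nat.log_le_self 2 m)

theorem slowClass_self {g : ℕ → ℕ} {π : Permutation} (h : π ∈ SlowClass g) :
    TreewidthLE (permGraph π) (g π.1) := h π (Contains.refl π)

theorem length_enc_word (x : List Bool) : (enc x).length ≤ x.length * 3 :=
  enc_length_le (m := 1) fun a _ => by rw [enc_bool]; exact le_rfl

open Classical in
/-- The explicit classes of slowly growing treewidth. -/
theorem slow_main {g : ℕ → ℕ} (hg : Monotone g) (hu : ∀ k, ∃ n, k ≤ g n) (h0 : 33 ≤ g 0) :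
    IsClass (SlowClass g) ∧ UnboundedTreewidth (SlowClass g) ∧
    (N68a2faeb.IsPolyTime (fun u : U => U.mk (g u.val)) →
      (∃ c : ℕ, ComputableInTimeOn {x : Permutation × Permutation | x.1 ∈ SlowClass g}
        (fun x => decide (Contains x.2 x.1)) (fun x => (x.1.1 + x.2.1 + 2) ^ (c * g x.1.1))) ∧
      (PatternPPMHard (SlowClass g) → ∀ L ∈ N68a2faeb.NP, ∃ c : ℕ,
        ComputableInTimeOn Set.univ L
          (fun x => (x.length + 2) ^ (c * g ((x.length + 2) ^ c))))) := by
  refine ⟨isClass_slowClass g, unbounded_slowClass hg hu h0, fun hpt => ?_⟩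
  have hg1 : ∀ n, 1 ≤ g n := fun n => by
    have := hg (Nat.zero_le n)
    omega
  obtain ⟨c, e, hc⟩ := exists_program hg1 (PT.of_isPolyTime hpt)
  refine ⟨⟨e, computable_of_runs (c := c) fun x hx => hc x (slowClass_self hx)⟩, ?_⟩
  intro hH L hL
  obtain ⟨f, hf, hf2⟩ := hH L hL
  have hfP := PT.of_isPolyTime hf
  obtain ⟨q, hq⟩ := hfP.length_bound
  obtain ⟨cf, pf, hcf⟩ := hfP
  obtain ⟨ef, hef⟩ := poly_pow pf
  obtain ⟨eq, heq⟩ := poly_pow q
  obtain ⟨C, hC⟩ : ∃ C, C = 3 * ef + (3 * eq + 1) * e + 1 + (3 * eq + 1) := ⟨_, rfl⟩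
  refine ⟨C, computable_of_runs (c := .seq cf c) fun x _ => ?_⟩
  obtain ⟨y, hy⟩ : ∃ y, y = f x := ⟨_, rfl⟩
  have hyC : y.1 ∈ SlowClass g := by rw [hy]; exact (hf2 x).1
  obtain ⟨t, ht1, ht2⟩ := hc y (slowClass_self hyC)
  have hLx : decide (Contains y.2 y.1) = L x := by
    have h1 := (hf2 x).2
    rw [← hy] at h1
    by_cases h2 : L x = true
    · rw [h2, decide_eq_true (h1.1 h2)]
    · rw [decide_eq_false fun h3 => h2 (h1.2 h3)]
      exact (Bool.not_eq_true _ ▸ h2).symm
  have hrun : Runs (.seq cf c) (single 0 (enc x)) (single 0 (enc (L x)))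
      (pf.eval (enc x).length + t) := by
    have h1 := hcf x
    rw [← hy] at h1
    rw [hLx] at ht1
    exact h1.seq ht1
  refine ⟨_, hrun, ?_⟩
  obtain ⟨b, hb⟩ : ∃ b, b = x.length + 2 := ⟨_, rfl⟩
  have hb2 : 2 ≤ b := by omega
  have hb0 : 0 < b := by omega
  rw [← hb]
  have h1 : (enc x).length ≤ b ^ 3 := by
    have e1 := length_enc_word x
    have e2 : 4 ≤ b ^ 2 := by
      calc 4 = 2 ^ 2 := by norm_num
        _ ≤ b ^ 2 := Nat.pow_le_pow_left hb2 2
    have e3 : b ^ 3 = b ^ 2 * b := by rw [pow_succ]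
    rw [e3]
    have e4 : 4 * b ≤ b ^ 2 * b := Nat.mul_le_mul_right _ e2
    omega
  have h2 : pf.eval (enc x).length + 1 ≤ b ^ (ef * 3) := hef b _ 3 hb2 (by norm_num) h1
  have h3 : (enc y).length + 1 ≤ b ^ (eq * 3) := by
    have e1 := hq x
    rw [← hy] at e1
    have e2 := heq b _ 3 hb2 (by norm_num) h1
    omega
  have h4 : y.1.1 + y.2.1 + 2 ≤ b ^ (eq * 3 + 1) := by
    have e1 : (enc y).length = 2 * (enc y.1).length + 1 + (enc y.2).length :=
      length_enc_pair y.1 y.2
    have e2 := length_le_enc_perm y.1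
    have e3 := length_le_enc_perm y.2
    have e4 : b ^ (eq * 3 + 1) = b ^ (eq * 3) * b := pow_succ _ _
    have e5 : b ^ (eq * 3) * 2 ≤ b ^ (eq * 3) * b := Nat.mul_le_mul_left _ hb2
    have e6 : 1 ≤ b ^ (eq * 3) := Nat.one_le_pow _ _ hb0
    rw [e4]
    omega
  obtain ⟨G, hG⟩ : ∃ G, G = g (b ^ (eq * 3 + 1)) := ⟨_, rfl⟩
  have hG1 : 1 ≤ G := hG ▸ hg1 _
  have hyG : g y.1.1 ≤ G := by
    rw [hG]
    exact hg (by omega)
  have h5 : t + 1 ≤ b ^ ((eq * 3 + 1) * (e * G)) := by
    refine ht2.trans ?_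
    calc (y.1.1 + y.2.1 + 2) ^ (e * g y.1.1) ≤ (b ^ (eq * 3 + 1)) ^ (e * g y.1.1) :=
          Nat.pow_le_pow_left h4 _
      _ = b ^ ((eq * 3 + 1) * (e * g y.1.1)) := by rw [← pow_mul]
      _ ≤ b ^ ((eq * 3 + 1) * (e * G)) := Nat.pow_le_pow_right hb0
          (Nat.mul_le_mul_left _ (Nat.mul_le_mul_left _ hyG))
  have h6 : b ^ (ef * 3) ≤ b ^ ((3 * ef + (3 * eq + 1) * e) * G) := by
    refine Nat.pow_le_pow_right hb0 ?_
    calc ef * 3 ≤ 3 * ef + (3 * eq + 1) * e := by omega
      _ ≤ (3 * ef + (3 * eq + 1) * e) * G := Nat.le_mul_of_pos_right _ hG1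
  have h7 : b ^ ((eq * 3 + 1) * (e * G)) ≤ b ^ ((3 * ef + (3 * eq + 1) * e) * G) :=
    Nat.pow_le_pow_right hb0 (by nlinarith [Nat.zero_le (ef * G)])
  have h8 : pf.eval (enc x).length + t + 1 ≤ b ^ ((3 * ef + (3 * eq + 1) * e + 1) * G) := by
    calc pf.eval (enc x).length + t + 1 ≤ b ^ ((3 * ef + (3 * eq + 1) * e) * G) * 2 := by omega
      _ ≤ b ^ ((3 * ef + (3 * eq + 1) * e) * G) * b ^ G := Nat.mul_le_mul_left _ (hb2.trans (by
          calc b = b ^ 1 := (pow_one b).symm
            _ ≤ b ^ G := Nat.pow_le_pow_right hb0 hG1))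
      _ = b ^ ((3 * ef + (3 * eq + 1) * e + 1) * G) := by rw [← pow_add]; congr 1; ring
  refine h8.trans (Nat.pow_le_pow_right hb0 ?_)
  have h9 : G ≤ g (b ^ C) := by
    rw [hG]
    exact hg (Nat.pow_le_pow_right hb0 (by rw [hC]; nlinarith [Nat.zero_le ((3 * eq + 1) * e)]))
  exact Nat.mul_le_mul (by rw [hC]; omega) h9

end Pool.Agent.PPMX
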